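import Pool.Agent.Q189.Z3.Fin

/-!
# The criterion
-/

set_option autoImplicit false

open PowerSeries

namespace Pool.Agent.Q189.Z3

open Pool.Agent.Y916.Sl Pool.Agent.Q189.MF Pool.Agent.Q246.NR Pool.Agent.Q246.NR2 Pool.Agent.Q246.LN

lemma sint_mem {T : ℕ} {ξ : ℂ} (h : SInt 1 T ξ) : ∃ a : ℤ, ξ = a ∧ |a| ≤ (T : ℤ) := by
  obtain ⟨h1, h2, h3⟩ := h
  have hq : IsIntegral ℚ ξ := h1.tower_top
  have hd : (minpoly ℚ ξ).natDegree = 1 := le_antisymm h2 (minpoly.natDegree_pos hq)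
  obtain ⟨q, hq1⟩ := minpoly.mem_range_of_degree_eq_one ℚ ξ
    (by rw [Polynomial.degree_eq_natDegree (minpoly.ne_zero hq), hd]; rfl)
  have h4 : IsIntegral ℤ q := (isIntegral_algebraMap_iff (algebraMap ℚ ℂ).injective).1 (hq1 ▸ h1)
  obtain ⟨a, ha⟩ := IsIntegrallyClosed.isIntegral_iff.1 h4
  have h5 : ξ = (a : ℂ) := by
    rw [← hq1, ← ha]
    simp
  refine ⟨a, h5, ?_⟩
  have h6 := h3 ξ (minpoly.aeval ℚ ξ)
  rw [h5, Complex.norm_intCast] at h6
  exact_mod_cast h6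

lemma sint_card (T : ℕ) : {ξ : ℂ | SInt 1 T ξ}.ncard ≤ 2 * T + 1 := by
  classical
  have h1 : {ξ : ℂ | SInt 1 T ξ} ⊆ (((Finset.Icc (-(T : ℤ)) T).image fun a : ℤ => (a : ℂ)) : Finset ℂ) := by
    intro ξ hξ
    obtain ⟨a, rfl, ha⟩ := sint_mem hξ
    rw [Finset.mem_coe, Finset.mem_image]
    exact ⟨a, Finset.mem_Icc.2 (abs_le.1 ha), rfl⟩
  refine (Set.ncard_le_ncard h1 (Finset.finite_toSet _)).trans ?_
  rw [Set.ncard_coe_finset]
  refine Finset.card_image_le.trans ?_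
  rw [Int.card_Icc]
  omega

lemma sint_nat {n T : ℕ} (h : n ≤ T) : SInt 1 T (n : ℂ) := by
  have h1 : minpoly ℚ (n : ℂ) = Polynomial.X - Polynomial.C (n : ℚ) := by
    have := minpoly.eq_X_sub_C ℂ (n : ℚ)
    simpa using this
  refine ⟨by exact_mod_cast (isIntegral_algebraMap (R := ℤ) (A := ℂ) (x := (n : ℤ))), ?_, fun z hz => ?_⟩
  · rw [h1, Polynomial.natDegree_X_sub_C]
  · rw [h1] at hz
    simp only [map_sub, Polynomial.aeval_X, Polynomial.aeval_C] at hz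
    have h2 : z = (n : ℂ) := by
      have := sub_eq_zero.1 hz
      simpa using this
    rw [h2, Complex.norm_natCast]
    exact_mod_cast h

/-- the three values -/
noncomputable def trip (n : ℕ) : Fin 3 → ℝ :=
  ![L3 (1 / n), L3 (1 - 1 / n), L3 (1 / (1 - n))]

lemma trip_sum {n : ℕ} (hn : 3 ≤ n) : trip n 0 + trip n 1 + trip n 2 = Li 3 1 := by
  have hn0 : (3 : ℝ) ≤ n := by exact_mod_cast hn
  have h1 := (vals (x := 1 / (n : ℝ)) (by positivity) (by
    rw [div_lt_div_iff₀ (by linarith) (by norm_num)]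
    linarith)).2
  have h2 : (1 / (n : ℝ)) / (1 / (n : ℝ) - 1) = 1 / (1 - n) := by
    have h3 : (1 : ℝ) - n ≠ 0 := by linarith
    have h4 : (n : ℝ) ≠ 0 := by linarith
    have h5 : (1 / (n : ℝ) - 1) ≠ 0 := by
      rw [div_sub_one h4]
      exact div_ne_zero h3 h4
    field_simp
  rw [h2] at h1
  exact h1

/-- a relation of degree at most `d` between the three values at `n` and the numbers `ζ` -/
def Rel {g : ℕ} (ζ : Fin g → ℝ) (d n : ℕ) : Prop :=
  ∃ P : MvPolynomial (Fin 3 ⊕ Fin g) ℤ, P ≠ 0 ∧ P.totalDegree ≤ d ∧ MvPolynomial.aeval (Sum.elim (trip n) ζ) P = 0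

variable {g : ℕ}

/-- the substitution for the third value -/
noncomputable def Us (g : ℕ) : Fin 3 ⊕ Fin g → MvPolynomial ((Fin 1 × Fin 2) ⊕ Fin (g + 1)) ℤ :=
  Sum.elim ![MvPolynomial.X (Sum.inl (0, 0)), MvPolynomial.X (Sum.inl (0, 1)),
    MvPolynomial.X (Sum.inr 0) - MvPolynomial.X (Sum.inl (0, 0)) - MvPolynomial.X (Sum.inl (0, 1))]
    fun i => MvPolynomial.X (Sum.inr i.succ)

/-- the substitution back -/
noncomputable def Ub (g : ℕ) : (Fin 1 × Fin 2) ⊕ Fin (g + 1) → MvPolynomial (Fin 3 ⊕ Fin g) ℤ :=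
  Sum.elim (fun v => (![MvPolynomial.X (Sum.inl 0), MvPolynomial.X (Sum.inl 1)] : Fin 2 → MvPolynomial (Fin 3 ⊕ Fin g) ℤ) v.2)
    (Fin.cons (MvPolynomial.X (Sum.inl 0) + MvPolynomial.X (Sum.inl 1) + MvPolynomial.X (Sum.inl 2))
      fun i => MvPolynomial.X (Sum.inr i))

lemma Us_Ub (P : MvPolynomial (Fin 3 ⊕ Fin g) ℤ) : MvPolynomial.aeval (Ub g) (MvPolynomial.aeval (Us g) P) = P := by
  have h1 : (fun v => MvPolynomial.aeval (Ub g) (Us g v)) = MvPolynomial.X := by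
    funext v
    rcases v with i | i
    · fin_cases i
      · show MvPolynomial.aeval (Ub g) (MvPolynomial.X (Sum.inl (0, 0))) = _
        rw [MvPolynomial.aeval_X]
        rfl
      · show MvPolynomial.aeval (Ub g) (MvPolynomial.X (Sum.inl (0, 1))) = _
        rw [MvPolynomial.aeval_X]
        rfl
      · show MvPolynomial.aeval (Ub g) (MvPolynomial.X (Sum.inr 0) - MvPolynomial.X (Sum.inl (0, 0)) -
          MvPolynomial.X (Sum.inl (0, 1))) = _
        rw [map_sub, map_sub, MvPolynomial.aeval_X, MvPolynomial.aeval_X, MvPolynomial.aeval_X]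
        show (MvPolynomial.X (Sum.inl 0) + MvPolynomial.X (Sum.inl 1) + MvPolynomial.X (Sum.inl 2)) -
          MvPolynomial.X (Sum.inl 0) - MvPolynomial.X (Sum.inl 1) = (MvPolynomial.X (Sum.inl 2) : MvPolynomial (Fin 3 ⊕ Fin g) ℤ)
        ring
    · show MvPolynomial.aeval (Ub g) (MvPolynomial.X (Sum.inr i.succ)) = _
      rw [MvPolynomial.aeval_X]
      rfl
  have h2 := MvPolynomial.comp_aeval_apply (Us g) (MvPolynomial.aeval (R := ℤ) (Ub g)) P
  rw [h2, h1, MvPolynomial.aeval_X_left_apply]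

lemma Us_eval {n : ℕ} (hn : 3 ≤ n) (ζ : Fin g → ℝ) (P : MvPolynomial (Fin 3 ⊕ Fin g) ℤ) :
    MvPolynomial.aeval (Sum.elim (n2 fun _ : Fin 1 => (n : ℝ)) (cz fun i => (ζ i : ℂ))) (MvPolynomial.aeval (Us g) P) =
      ((MvPolynomial.aeval (Sum.elim (trip n) ζ) P : ℝ) : ℂ) := by
  have h1 : (fun v => MvPolynomial.aeval (Sum.elim (n2 fun _ : Fin 1 => (n : ℝ)) (cz fun i => (ζ i : ℂ))) (Us g v)) =
      fun v => algebraMap ℝ ℂ (Sum.elim (trip n) ζ v) := by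
    funext v
    rcases v with i | i
    · fin_cases i
      · show MvPolynomial.aeval _ (MvPolynomial.X (Sum.inl (0, 0))) = _
        rw [MvPolynomial.aeval_X]
        rfl
      · show MvPolynomial.aeval _ (MvPolynomial.X (Sum.inl (0, 1))) = _
        rw [MvPolynomial.aeval_X]
        rfl
      · show MvPolynomial.aeval _ (MvPolynomial.X (Sum.inr 0) - MvPolynomial.X (Sum.inl (0, 0)) -
          MvPolynomial.X (Sum.inl (0, 1))) = _
        rw [map_sub, map_sub, MvPolynomial.aeval_X, MvPolynomial.aeval_X, MvPolynomial.aeval_X]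
        show ((Li 3 1 : ℝ) : ℂ) - ((trip n 0 : ℝ) : ℂ) - ((trip n 1 : ℝ) : ℂ) = ((trip n 2 : ℝ) : ℂ)
        rw [← trip_sum hn]
        push_cast
        ring
    · show MvPolynomial.aeval _ (MvPolynomial.X (Sum.inr i.succ)) = _
      rw [MvPolynomial.aeval_X]
      rfl
  rw [MvPolynomial.comp_aeval_apply (Us g) (MvPolynomial.aeval _) P, h1]
  exact MvPolynomial.aeval_algebraMap_apply ℂ (Sum.elim (trip n) ζ) P

/-- vanishing for all values of the first variables -/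
lemma zero_of_all {β : Type} {G : ℕ} (c : Fin G → ℂ) (hc : AlgebraicIndependent ℤ c) (P : MvPolynomial (β ⊕ Fin G) ℤ)
    (h : ∀ w : β → ℂ, MvPolynomial.aeval (Sum.elim w c) P = 0) : P = 0 := by
  classical
  set Q := MvPolynomial.sumAlgEquiv ℤ β (Fin G) P with hQ
  set φ : MvPolynomial (Fin G) ℤ →+* ℂ := (MvPolynomial.aeval c : MvPolynomial (Fin G) ℤ →ₐ[ℤ] ℂ).toRingHom with hφ
  have hinj : Function.Injective φ := hc
  have h1 : ∀ w : β → ℂ, MvPolynomial.eval w (MvPolynomial.map φ Q) = MvPolynomial.aeval (Sum.elim w c) P := by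
    intro w
    rw [MvPolynomial.eval_map, hQ]
    have h2 : (MvPolynomial.eval₂Hom φ w).comp (MvPolynomial.sumAlgEquiv ℤ β (Fin G)).toRingEquiv.toRingHom =
        (MvPolynomial.aeval (Sum.elim w c) : MvPolynomial (β ⊕ Fin G) ℤ →ₐ[ℤ] ℂ).toRingHom := by
      refine MvPolynomial.ringHom_ext (fun a => ?_) fun v => ?_
      · simp
      · rcases v with b | i
        · show MvPolynomial.eval₂ φ w (MvPolynomial.sumAlgEquiv ℤ β (Fin G) (MvPolynomial.X (Sum.inl b))) =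
            MvPolynomial.aeval (Sum.elim w c) (MvPolynomial.X (Sum.inl b))
          rw [MvPolynomial.aeval_X, MvPolynomial.sumAlgEquiv_X_inl, MvPolynomial.eval₂_X]
          rfl
        · show MvPolynomial.eval₂ φ w (MvPolynomial.sumAlgEquiv ℤ β (Fin G) (MvPolynomial.X (Sum.inr i))) =
            MvPolynomial.aeval (Sum.elim w c) (MvPolynomial.X (Sum.inr i))
          rw [MvPolynomial.aeval_X, MvPolynomial.sumAlgEquiv_X_inr, MvPolynomial.eval₂_C]
          exact MvPolynomial.aeval_X _ _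
    exact RingHom.congr_fun h2 P
  have h3 : MvPolynomial.map φ Q = 0 := by
    refine MvPolynomial.funext fun w => ?_
    rw [h1, h, map_zero]
  have h4 : Q = 0 := by
    apply MvPolynomial.map_injective φ hinj
    rw [h3, map_zero]
  exact (map_eq_zero_iff _ (MvPolynomial.sumAlgEquiv ℤ β (Fin G)).injective).1 h4

/-- independence over the rational numbers -/
lemma indQ {ι : Type} (x : ι → ℝ) : AlgebraicIndependent ℤ x ↔ AlgebraicIndependent ℚ x := by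
  classical
  refine ⟨fun h => ?_, fun h => h.restrictScalars (algebraMap ℤ ℚ).injective_int⟩
  rw [algebraicIndependent_iff] at h ⊢
  intro p hp
  obtain ⟨b, hb⟩ := IsLocalization.exist_integer_multiples_of_finset (nonZeroDivisors ℤ) (p.support.image fun e => p.coeff e)
  have hb0 : ((b : ℤ) : ℚ) ≠ 0 := by exact_mod_cast nonZeroDivisors.coe_ne_zero b
  have h1 : ∀ e, ∃ a : ℤ, (a : ℚ) = (b : ℤ) * p.coeff e := by
    intro e
    by_cases he : e ∈ p.support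
    · obtain ⟨a, ha⟩ := hb (p.coeff e) (Finset.mem_image_of_mem _ he)
      refine ⟨a, ?_⟩
      have h2 : (a : ℚ) = (b : nonZeroDivisors ℤ) • p.coeff e := ha
      rw [h2, Submonoid.smul_def, zsmul_eq_mul]
    · exact ⟨0, by rw [MvPolynomial.notMem_support_iff.1 he]; simp⟩
  choose a ha using h1
  set q : MvPolynomial ι ℤ := ∑ e ∈ p.support, MvPolynomial.monomial e (a e) with hq
  have h2 : MvPolynomial.map (algebraMap ℤ ℚ) q = MvPolynomial.C ((b : ℤ) : ℚ) * p := by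
    rw [hq, map_sum]
    conv_rhs => rw [p.as_sum, Finset.mul_sum]
    refine Finset.sum_congr rfl fun e _ => ?_
    rw [MvPolynomial.map_monomial, MvPolynomial.C_mul_monomial]
    congr 1
    exact ha e
  have h3 : MvPolynomial.aeval x q = 0 := by
    have h4 : MvPolynomial.aeval x (MvPolynomial.map (algebraMap ℤ ℚ) q) = MvPolynomial.aeval x q :=
      MvPolynomial.aeval_map_algebraMap ℚ x q
    rw [← h4, h2, map_mul, hp, mul_zero]
  have h4 := h q h3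
  rw [h4, map_zero] at h2
  rcases mul_eq_zero.1 h2.symm with h5 | h5
  · exact absurd (MvPolynomial.C_eq_zero.1 h5) hb0
  · exact h5

/-- a bound for the coefficients -/
lemma exists_height {V : Type} (P : MvPolynomial V ℤ) : ∃ j₀ : ℕ, ∀ e, |((P.coeff e : ℤ) : ℝ)| ≤ 2 ^ (2 ^ j₀) := by
  classical
  refine ⟨∑ e ∈ P.support, (P.coeff e).natAbs, fun e => ?_⟩
  by_cases he : e ∈ P.support
  · have h1 : (P.coeff e).natAbs ≤ ∑ e ∈ P.support, (P.coeff e).natAbs :=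
      Finset.single_le_sum (f := fun e => (P.coeff e).natAbs) (fun _ _ => Nat.zero_le _) he
    have h2 : ∀ j : ℕ, j ≤ 2 ^ (2 ^ j) := fun j =>
      (Nat.lt_two_pow_self (n := j)).le.trans (Nat.pow_le_pow_right (by norm_num) (Nat.lt_two_pow_self (n := j)).le)
    have h3 : |((P.coeff e : ℤ) : ℝ)| = ((P.coeff e).natAbs : ℝ) := by
      rw [Nat.cast_natAbs]
      push_cast
      rfl
    rw [h3]
    exact_mod_cast h1.trans (h2 _)
  · rw [MvPolynomial.notMem_support_iff.1 he]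
    simp

/-- there are few integers with a relation -/
theorem few (g d : ℕ) : ∃ C c : ℝ, 0 < c ∧ ∀ ζ : Fin g → ℝ, AlgebraicIndependent ℤ (Fin.cons (Li 3 1) ζ : Fin (g + 1) → ℝ) →
    ∀ T : ℕ, 1 ≤ T → (({n : ℕ | 3 ≤ n ∧ n ≤ T ∧ Rel ζ d n}.ncard : ℕ) : ℝ) ≤ C * (T : ℝ) ^ (1 - c) := by
  classical
  obtain ⟨B, C, c, hc, hmain⟩ := main 1 g d 1 le_rfl
  refine ⟨3 * max C 0, c, hc, fun ζ hζ T hT => ?_⟩
  have hT0 : (0 : ℝ) < T := by exact_mod_cast hT
  rcases Nat.lt_or_ge T 2 with hT2 | hT2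
  · have h1 : {n : ℕ | 3 ≤ n ∧ n ≤ T ∧ Rel ζ d n} = ∅ := by
      ext n
      simp only [Set.mem_ofPred_eq, Set.mem_empty_iff_false, iff_false]
      rintro ⟨ha, hb, -⟩
      omega
    rw [h1, Set.ncard_empty, Nat.cast_zero]
    positivity
  set δ : ℝ := (T : ℝ) ^ (-c) with hδ
  have hδ1 : δ < 1 := Real.rpow_lt_one_of_one_lt_of_neg (by exact_mod_cast hT2) (by linarith)
  have hδ0 : 0 < δ := Real.rpow_pos_of_pos hT0 _
  have hcz : AlgebraicIndependent ℤ (cz fun i => ((ζ i : ℝ) : ℂ)) := by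
    have h1 := hζ.map' (f := (Complex.ofRealHom.toIntAlgHom : ℝ →ₐ[ℤ] ℂ)) Complex.ofReal_injective
    have h2 : (cz fun i => ((ζ i : ℝ) : ℂ)) = (Complex.ofRealHom.toIntAlgHom : ℝ →ₐ[ℤ] ℂ) ∘
        (Fin.cons (Li 3 1) ζ : Fin (g + 1) → ℝ) := by
      funext i
      refine Fin.cases ?_ (fun i => ?_) i
      · rfl
      · rfl
    rw [h2]
    exact h1
  have h1 := (hmain T hT).2 fun i => ((ζ i : ℝ) : ℂ)
  rw [pow_one] at h1
  have h2 : (({ξ : ℂ | SInt 1 T ξ}.ncard : ℕ) : ℝ) ≤ 3 * T := by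
    have h3 := sint_card T
    calc (({ξ : ℂ | SInt 1 T ξ}.ncard : ℕ) : ℝ) ≤ ((2 * T + 1 : ℕ) : ℝ) := by exact_mod_cast h3
      _ ≤ 3 * T := by
        push_cast
        have : (1 : ℝ) ≤ T := by exact_mod_cast hT
        linarith
  refine (Nat.cast_le.2 ?_).trans (h1.trans ?_)
  · refine Set.ncard_le_ncard_of_injOn (fun n : ℕ => fun _ : Fin 1 => (n : ℂ)) (fun n hn => ?_)
      (fun a _ b _ hab => Nat.cast_injective (R := ℂ) (congrFun hab 0))
      ((Set.Finite.pi' fun _ : Fin 1 => sint_fin 1 T).subset fun x hx => hx.1)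
    obtain ⟨hn3, hnT, P, hP0, hPd, hP⟩ := hn
    refine ⟨fun _ => sint_nat hnT, fun hcon => hP0 ?_⟩
    obtain ⟨j₀, hj₀⟩ := exists_height (MvPolynomial.aeval (Us g) P)
    obtain ⟨N, hN, hbad⟩ := hcon (⌈(j₀ : ℝ) / (1 - δ)⌉₊ + 1)
    have hδ' : 0 < 1 - δ := by linarith
    have hN1 : (j₀ : ℝ) < N * (1 - δ) := by
      rw [← div_lt_iff₀ hδ']
      exact lt_of_le_of_lt (Nat.le_ceil _) (by exact_mod_cast hN)
    have hex : ∃ j, j₀ ≤ j ∧ ∀ H : ℝ, 2 ^ (2 ^ j) ≤ H → H ≤ 2 ^ (2 ^ (j + 1)) →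
        GZ d B (fun i => ((ζ i : ℝ) : ℂ)) (fun _ : Fin 1 => (n : ℂ)) H := by
      by_contra hne
      push Not at hne
      have h5 : ((Finset.Ico j₀ N : Finset ℕ) : Set ℕ) ⊆ {j : ℕ | j < N ∧ ¬ ∀ H : ℝ, 2 ^ (2 ^ j) ≤ H → H ≤ 2 ^ (2 ^ (j + 1)) →
          GZ d B (fun i => ((ζ i : ℝ) : ℂ)) (fun _ : Fin 1 => (n : ℂ)) H} := by
        intro j hj
        rw [Finset.mem_coe, Finset.mem_Ico] at hj
        refine ⟨hj.2, fun hall => ?_⟩
        obtain ⟨H, ha, hb, hcc⟩ := hne j hj.1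
        exact hcc (hall H ha hb)
      have h6 := Set.ncard_le_ncard h5 ((Set.finite_lt_nat N).subset fun j hj => hj.1)
      rw [Set.ncard_coe_finset, Nat.card_Ico] at h6
      have h7 : ((N - j₀ : ℕ) : ℝ) ≤ δ * N := (Nat.cast_le.2 h6).trans hbad
      have h8 : (N : ℝ) - j₀ ≤ ((N - j₀ : ℕ) : ℝ) := by
        rw [sub_le_iff_le_add]
        exact_mod_cast Nat.sub_le_iff_le_add.1 le_rfl
      nlinarith
    obtain ⟨j, hj, hgood⟩ := hex
    have h5 := hgood (2 ^ (2 ^ j)) le_rfl (pow_le_pow_right₀ (by norm_num) (Nat.pow_le_pow_right (by norm_num) (Nat.le_succ j)))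
      (fun _ => (n : ℝ)) (fun _ => ⟨by
        have : (3 : ℝ) ≤ n := by exact_mod_cast hn3
        linarith, by simp⟩)
    have h6 : ∀ w : Fin 1 × Fin 2 → ℂ, MvPolynomial.aeval (Sum.elim w (cz fun i => ((ζ i : ℝ) : ℂ)))
        (MvPolynomial.aeval (Us g) P) = 0 := by
      intro w
      have h7 := h5 (MvPolynomial.aeval (Us g) P) (Pool.Agent.Q189.JM.deg_aeval (Us g) (fun v => ?_) P hPd)
        (fun e => (hj₀ e).trans (pow_le_pow_right₀ (by norm_num) (Nat.pow_le_pow_right (by norm_num) hj))) w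
      · rw [Us_eval hn3, hP, Complex.ofReal_zero, norm_zero, mul_zero] at h7
        exact norm_le_zero_iff.1 h7
      · rcases v with i | i
        · fin_cases i
          · exact Pool.Agent.Q189.JM.dX' _
          · exact Pool.Agent.Q189.JM.dX' _
          · exact (MvPolynomial.totalDegree_sub _ _).trans (max_le ((MvPolynomial.totalDegree_sub _ _).trans
              (max_le (Pool.Agent.Q189.JM.dX' _) (Pool.Agent.Q189.JM.dX' _))) (Pool.Agent.Q189.JM.dX' _))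
        · exact Pool.Agent.Q189.JM.dX' _
    have h7 := zero_of_all _ hcz _ h6
    rw [← Us_Ub P, h7, map_zero]
  · calc C * δ * (({ξ : ℂ | SInt 1 T ξ}.ncard : ℕ) : ℝ) ≤ max C 0 * δ * (3 * T) :=
        mul_le_mul (mul_le_mul_of_nonneg_right (le_max_left _ _) hδ0.le) h2 (by positivity) (by positivity)
      _ = 3 * max C 0 * (δ * T) := by ring
      _ = 3 * max C 0 * (T : ℝ) ^ (1 - c) := by
        congr 1
        rw [hδ, ← Real.rpow_add_one hT0.ne']
        congr 1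
        ring

/-- a relation exists at every integer if the constants are dependent -/
theorem dep (ζ : Fin g → ℝ) (h : ¬ AlgebraicIndependent ℤ (Fin.cons (Li 3 1) ζ : Fin (g + 1) → ℝ)) :
    ∃ d, ∀ n, 3 ≤ n → Rel ζ d n := by
  classical
  rw [algebraicIndependent_iff] at h
  push Not at h
  obtain ⟨p, hp, hp0⟩ := h
  set U : Fin (g + 1) → MvPolynomial (Fin 3 ⊕ Fin g) ℤ :=
    Fin.cons (MvPolynomial.X (Sum.inl 0) + MvPolynomial.X (Sum.inl 1) + MvPolynomial.X (Sum.inl 2))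
      fun i => MvPolynomial.X (Sum.inr i) with hU
  set W : Fin 3 ⊕ Fin g → MvPolynomial (Fin (g + 1)) ℤ :=
    Sum.elim ![MvPolynomial.X 0, 0, 0] fun i => MvPolynomial.X i.succ with hW
  have h1 : MvPolynomial.aeval W (MvPolynomial.aeval U p) = p := by
    have h2 : (fun v => MvPolynomial.aeval W (U v)) = MvPolynomial.X := by
      funext v
      refine Fin.cases ?_ (fun i => ?_) v
      · show MvPolynomial.aeval W (MvPolynomial.X (Sum.inl 0) + MvPolynomial.X (Sum.inl 1) + MvPolynomial.X (Sum.inl 2)) = _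
        rw [map_add, map_add, MvPolynomial.aeval_X, MvPolynomial.aeval_X, MvPolynomial.aeval_X]
        show MvPolynomial.X 0 + 0 + 0 = (MvPolynomial.X 0 : MvPolynomial (Fin (g + 1)) ℤ)
        ring
      · show MvPolynomial.aeval W (MvPolynomial.X (Sum.inr i)) = _
        rw [MvPolynomial.aeval_X]
        rfl
    rw [MvPolynomial.comp_aeval_apply U (MvPolynomial.aeval (R := ℤ) W) p, h2, MvPolynomial.aeval_X_left_apply]
  refine ⟨(MvPolynomial.aeval U p).totalDegree, fun n hn => ⟨MvPolynomial.aeval U p, fun h0 => hp0 ?_, le_rfl, ?_⟩⟩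
  · rw [← h1, h0, map_zero]
  · rw [MvPolynomial.comp_aeval_apply U (MvPolynomial.aeval (R := ℤ) (Sum.elim (trip n) ζ)) p]
    have h2 : (fun v => MvPolynomial.aeval (Sum.elim (trip n) ζ) (U v)) = (Fin.cons (Li 3 1) ζ : Fin (g + 1) → ℝ) := by
      funext v
      refine Fin.cases ?_ (fun i => ?_) v
      · show MvPolynomial.aeval (Sum.elim (trip n) ζ) (MvPolynomial.X (Sum.inl 0) + MvPolynomial.X (Sum.inl 1) +
          MvPolynomial.X (Sum.inl 2)) = _
        rw [map_add, map_add, MvPolynomial.aeval_X, MvPolynomial.aeval_X, MvPolynomial.aeval_X]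
        exact trip_sum hn
      · show MvPolynomial.aeval (Sum.elim (trip n) ζ) (MvPolynomial.X (Sum.inr i)) = _
        rw [MvPolynomial.aeval_X]
        rfl
    rw [h2]
    exact hp

/-- few relations leave integers without relation -/
lemma exists_of_few {A : ℕ → Prop} {C c : ℝ} (hc : 0 < c) (h : ∀ T : ℕ, 1 ≤ T →
    (({n : ℕ | 3 ≤ n ∧ n ≤ T ∧ A n}.ncard : ℕ) : ℝ) ≤ C * (T : ℝ) ^ (1 - c)) : ∃ n, 3 ≤ n ∧ ¬ A n := by
  by_contra hne
  push Not at hne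
  have h1 : ∀ T : ℕ, 1 ≤ T → (T : ℝ) - 2 ≤ C * (T : ℝ) ^ (1 - c) := by
    intro T hT
    refine le_trans ?_ (h T hT)
    have h2 : {n : ℕ | 3 ≤ n ∧ n ≤ T ∧ A n} = ((Finset.Icc 3 T : Finset ℕ) : Set ℕ) := by
      ext n
      rw [Finset.mem_coe, Finset.mem_Icc]
      exact ⟨fun h => ⟨h.1, h.2.1⟩, fun h => ⟨h.1, h.2, hne n h.1⟩⟩
    rw [h2, Set.ncard_coe_finset, Nat.card_Icc]
    have h3 : T ≤ (T + 1 - 3) + 2 := by omega
    have h4 : (T : ℝ) ≤ ((T + 1 - 3 : ℕ) : ℝ) + 2 := by exact_mod_cast h3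
    linarith
  have h2 : Filter.Tendsto (fun T : ℕ => C * (T : ℝ) ^ (-c) + 2 * (T : ℝ) ^ (-(1 : ℝ))) Filter.atTop (nhds (C * 0 + 2 * 0)) :=
    (((tendsto_rpow_neg_atTop hc).comp tendsto_natCast_atTop_atTop).const_mul C).add
      (((tendsto_rpow_neg_atTop one_pos).comp tendsto_natCast_atTop_atTop).const_mul 2)
  rw [mul_zero, mul_zero, add_zero] at h2
  obtain ⟨T, hT, hT1⟩ := ((h2.eventually (gt_mem_nhds (show (0 : ℝ) < 1 by norm_num))).and (Filter.eventually_ge_atTop 1)).exists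
  have h3 := h1 T hT1
  have hT0 : (0 : ℝ) < T := by exact_mod_cast hT1
  have h4 : C * (T : ℝ) ^ (1 - c) = C * (T : ℝ) ^ (-c) * T := by
    rw [mul_assoc, ← Real.rpow_add_one hT0.ne']
    congr 2
    ring
  have h5 : (2 : ℝ) = 2 * (T : ℝ) ^ (-(1 : ℝ)) * T := by
    rw [Real.rpow_neg_one]
    field_simp
  rw [h4] at h3
  have h6 : (T : ℝ) ≤ (C * (T : ℝ) ^ (-c) + 2 * (T : ℝ) ^ (-(1 : ℝ))) * T := by
    rw [add_mul, ← h5]
    linarith
  nlinarith

/-- the criterion -/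
theorem crit (ζ : Fin g → ℝ) :
    (AlgebraicIndependent ℚ (Fin.cons (Li 3 1) ζ : Fin (g + 1) → ℝ) ↔ ∀ d, ∃ n, 3 ≤ n ∧ ¬ Rel ζ d n) ∧
    (AlgebraicIndependent ℚ (Fin.cons (Li 3 1) ζ : Fin (g + 1) → ℝ) ↔ ∀ d, ∃ C c : ℝ, 0 < c ∧ ∀ T : ℕ, 1 ≤ T →
      (({n : ℕ | 3 ≤ n ∧ n ≤ T ∧ Rel ζ d n}.ncard : ℕ) : ℝ) ≤ C * (T : ℝ) ^ (1 - c)) := by
  have h1 : AlgebraicIndependent ℚ (Fin.cons (Li 3 1) ζ : Fin (g + 1) → ℝ) → ∀ d, ∃ C c : ℝ, 0 < c ∧ ∀ T : ℕ, 1 ≤ T →
      (({n : ℕ | 3 ≤ n ∧ n ≤ T ∧ Rel ζ d n}.ncard : ℕ) : ℝ) ≤ C * (T : ℝ) ^ (1 - c) := by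
    intro h d
    obtain ⟨C, c, hc, hf⟩ := few g d
    exact ⟨C, c, hc, hf ζ ((indQ _).2 h)⟩
  have h2 : (∀ d, ∃ C c : ℝ, 0 < c ∧ ∀ T : ℕ, 1 ≤ T →
      (({n : ℕ | 3 ≤ n ∧ n ≤ T ∧ Rel ζ d n}.ncard : ℕ) : ℝ) ≤ C * (T : ℝ) ^ (1 - c)) → ∀ d, ∃ n, 3 ≤ n ∧ ¬ Rel ζ d n := by
    intro h d
    obtain ⟨C, c, hc, hf⟩ := h d
    exact exists_of_few hc hf
  have h3 : (∀ d, ∃ n, 3 ≤ n ∧ ¬ Rel ζ d n) → AlgebraicIndependent ℚ (Fin.cons (Li 3 1) ζ : Fin (g + 1) → ℝ) := by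
    intro h
    by_contra hne
    obtain ⟨d, hd⟩ := dep ζ fun hz => hne ((indQ _).1 hz)
    obtain ⟨n, hn, hn'⟩ := h d
    exact hn' (hd n hn)
  exact ⟨⟨fun h => h2 (h1 h), h3⟩, ⟨h1, fun h => h3 (h2 h)⟩⟩

end Pool.Agent.Q189.Z3
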