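import Pool.Agent.Q189.Z3.Ana
import Pool.Agent.Q189.HL.Der

/-!
# The words `001` and `011` are algebraically independent; words of bounded weight
-/

set_option autoImplicit false

open PowerSeries

namespace Pool.Agent.Q189.Z3

open Pool.Agent.Y119.ML (LL UU In geo adm adm_tail adm_none const_LL theta_LL theta_In const_In WI)
open Pool.Agent.Q189.HL (Sa Lx coe_Lx Dd Dd_apply Dl_cons Dl_nil nil_adm LL_mul sh adm_sh length_sh mem_Sa LL_mem)

lemma α1_inj : Function.Injective α1 := fun a b _ => Subsingleton.elim a b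

lemma α1_ne : ∀ a, α1 a ≠ 0 := fun _ => by norm_num

/-- the elements of the algebra -/
noncomputable abbrev Lz (w : List (Option (Fin 1))) : Sa α1 := Lx α1_inj α1_ne w

/-- the derivations -/
noncomputable abbrev De (o : Option (Fin 1)) : Derivation (Polynomial ℚ) (Sa α1) (Sa α1) := Dd α1_inj α1_ne o

lemma De_cons (o a : Option (Fin 1)) {w : List (Option (Fin 1))} (h : adm (a :: w)) :
    De o (Lz (a :: w)) = if a = o then Lz w else 0 := Dl_cons α1_inj α1_ne o a h

lemma Lz_ne {w : List (Option (Fin 1))} (h : adm w) : Lz w ≠ 0 := by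
  intro h0
  have h1 := coe_Lx α1_inj α1_ne h
  rw [show Lx α1_inj α1_ne w = 0 from h0, Subalgebra.coe_zero] at h1
  have h2 := Pool.Agent.Q189.HL.li_all α1 α1_inj α1_ne
  exact h2.ne_zero ⟨w, h⟩ h1.symm

/-- the chain rule -/
lemma chain (D : Derivation (Polynomial ℚ) (Sa α1) (Sa α1)) (f : Fin 2 → Sa α1) (R : MvPolynomial (Fin 2) ℚ) :
    D (MvPolynomial.aeval f R) = ∑ i, MvPolynomial.aeval f (MvPolynomial.pderiv i R) * D (f i) := by
  induction R using MvPolynomial.induction_on with
  | C c =>
    simp only [MvPolynomial.pderiv_C, map_zero, zero_mul, Finset.sum_const_zero]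
    rw [MvPolynomial.aeval_C, IsScalarTower.algebraMap_apply ℚ (Polynomial ℚ) (Sa α1)]
    exact D.map_algebraMap _
  | add p q hp hq =>
    rw [map_add, map_add, hp, hq, ← Finset.sum_add_distrib]
    refine Finset.sum_congr rfl fun i _ => ?_
    rw [map_add, map_add, add_mul]
  | mul_X p j hp =>
    rw [map_mul, MvPolynomial.aeval_X, D.leibniz, hp, smul_eq_mul, smul_eq_mul, Finset.mul_sum]
    have h1 : ∀ i, MvPolynomial.aeval f (MvPolynomial.pderiv i (p * MvPolynomial.X j)) * D (f i) =
        MvPolynomial.aeval f p * (if i = j then D (f i) else 0) +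
          f j * (MvPolynomial.aeval f (MvPolynomial.pderiv i p) * D (f i)) := by
      intro i
      rw [MvPolynomial.pderiv_mul, MvPolynomial.pderiv_X, map_add, map_mul, map_mul, MvPolynomial.aeval_X]
      by_cases hij : i = j
      · subst hij
        rw [if_pos rfl, Pi.single_eq_same, map_one]
        ring
      · rw [if_neg hij, Pi.single_eq_of_ne (fun h => hij h.symm), map_zero]
        ring
    simp only [h1, Finset.sum_add_distrib]
    congr 1
    rw [← Finset.mul_sum]
    simp

/-- the two elements -/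
noncomputable def fg : Fin 2 → Sa α1 := ![Lz [none, none, some 0], Lz [none, some 0, some 0]]

theorem fg_indep (n : ℕ) : ∀ R : MvPolynomial (Fin 2) ℚ, (∀ m, n < m.degree → R.coeff m = 0) → MvPolynomial.aeval fg R = 0 →
    R = 0 := by
  have a1 : adm [none, some (0 : Fin 1)] := by unfold adm; simp
  have a2 : adm [some (0 : Fin 1), some 0] := by unfold adm; simp
  have a3 : adm [none, none, some (0 : Fin 1)] := by unfold adm; simp
  have a4 : adm [none, some (0 : Fin 1), some 0] := by unfold adm; simp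
  have a5 : adm [some (0 : Fin 1)] := by unfold adm; simp
  have d1 : ∀ R : MvPolynomial (Fin 2) ℚ, De none (MvPolynomial.aeval fg R) =
      MvPolynomial.aeval fg (MvPolynomial.pderiv 0 R) * Lz [none, some 0] +
        MvPolynomial.aeval fg (MvPolynomial.pderiv 1 R) * Lz [some 0, some 0] := by
    intro R
    rw [chain, Fin.sum_univ_two]
    have e1 : De none (fg 0) = Lz [none, some 0] := by
      show De none (Lz [none, none, some 0]) = _
      rw [De_cons none none a3, if_pos rfl]
    have e2 : De none (fg 1) = Lz [some 0, some 0] := by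
      show De none (Lz [none, some 0, some 0]) = _
      rw [De_cons none none a4, if_pos rfl]
    rw [e1, e2]
  have d2 : ∀ R : MvPolynomial (Fin 2) ℚ, De (some 0) (MvPolynomial.aeval fg R) = 0 := by
    intro R
    rw [chain, Fin.sum_univ_two]
    have e1 : De (some 0) (fg 0) = 0 := by
      show De (some 0) (Lz [none, none, some 0]) = _
      rw [De_cons (some 0) none a3, if_neg (by simp)]
    have e2 : De (some 0) (fg 1) = 0 := by
      show De (some 0) (Lz [none, some 0, some 0]) = _
      rw [De_cons (some 0) none a4, if_neg (by simp)]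
    rw [e1, e2, mul_zero, mul_zero, add_zero]
  induction n with
  | zero =>
    intro R hR h0
    have h1 : R = MvPolynomial.C (R.coeff 0) := by
      ext m
      rw [MvPolynomial.coeff_C]
      split_ifs with hm
      · rw [← hm]
      · refine hR m (Nat.pos_of_ne_zero fun h => hm ?_)
        exact (Finsupp.degree_eq_zero_iff m |>.1 h).symm
    rw [h1, MvPolynomial.aeval_C] at h0
    have h2 : R.coeff 0 = 0 := by
      rw [IsScalarTower.algebraMap_apply ℚ (Polynomial ℚ) (Sa α1)] at h0
      have h3 := congrArg (Subtype.val : Sa α1 → ℚ⟦X⟧) h0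
      have h4 : ((algebraMap (Polynomial ℚ) (Sa α1) (algebraMap ℚ (Polynomial ℚ) (R.coeff 0)) : Sa α1) : ℚ⟦X⟧) =
          algebraMap (Polynomial ℚ) ℚ⟦X⟧ (algebraMap ℚ (Polynomial ℚ) (R.coeff 0)) := rfl
      rw [h4, ← IsScalarTower.algebraMap_apply ℚ (Polynomial ℚ) ℚ⟦X⟧] at h3
      have h5 : (algebraMap ℚ ℚ⟦X⟧ (R.coeff 0)) = C (R.coeff 0) := rfl
      rw [h5] at h3
      have h6 := congrArg constantCoeff h3
      simpa using h6
    rw [h1, h2, map_zero]
  | succ n ih =>
    intro R hR h0
    have hpd : ∀ i, ∀ m, n < m.degree → (MvPolynomial.pderiv i R).coeff m = 0 := by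
      intro i m hm
      rw [MvPolynomial.coeff_pderiv, hR _ (by rw [map_add, Finsupp.degree_single]; omega), zero_mul]
    have h1 := d1 R
    rw [h0, map_zero] at h1
    have h2 := congrArg (De (some 0)) h1
    rw [map_zero, map_add, Derivation.leibniz, Derivation.leibniz, d2, d2, De_cons (some 0) none a1, if_neg (by simp),
      De_cons (some 0) (some 0) a2, if_pos rfl] at h2
    simp only [smul_eq_mul, mul_zero, add_zero, zero_add] at h2
    have h3 : MvPolynomial.aeval fg (MvPolynomial.pderiv 1 R) = 0 := (mul_eq_zero.1 h2.symm).resolve_right (Lz_ne a5)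
    rw [h3, zero_mul, add_zero] at h1
    have h4 : MvPolynomial.aeval fg (MvPolynomial.pderiv 0 R) = 0 := (mul_eq_zero.1 h1.symm).resolve_right (Lz_ne a1)
    have p0 := ih _ (hpd 0) h4
    have p1 := ih _ (hpd 1) h3
    have hp : ∀ i, MvPolynomial.pderiv i R = 0 := fun i => by
      fin_cases i
      · exact p0
      · exact p1
    refine ih R (fun m hm => ?_) h0
    have hm0 : m ≠ 0 := by
      rintro rfl
      simp at hm
    obtain ⟨i, hi⟩ := Finsupp.ne_iff.1 hm0
    have hi' : 1 ≤ m i := Nat.one_le_iff_ne_zero.2 hi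
    have h5 : m - Finsupp.single i 1 + Finsupp.single i 1 = m := by
      refine tsub_add_cancel_of_le ?_
      rw [Finsupp.single_le_iff]
      exact hi'
    have h6 := congrArg (MvPolynomial.coeff (m - Finsupp.single i 1)) (hp i)
    rw [MvPolynomial.coeff_pderiv, h5, MvPolynomial.coeff_zero] at h6
    refine (mul_eq_zero.1 h6).resolve_right ?_
    positivity

/-- the words of weight at most `W` -/
noncomputable def VW (W : ℕ) : Submodule ℚ ℚ⟦X⟧ :=
  Submodule.span ℚ {f | ∃ w : List (Option (Fin 1)), adm w ∧ w.length ≤ W ∧ f = L w}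

lemma VW_mem {W : ℕ} {w : List (Option (Fin 1))} (h : adm w) (hw : w.length ≤ W) : L w ∈ VW W :=
  Submodule.subset_span ⟨w, h, hw, rfl⟩

lemma VW_mono {W W' : ℕ} (h : W ≤ W') : VW W ≤ VW W' :=
  Submodule.span_mono fun f ⟨w, h1, h2, h3⟩ => ⟨w, h1, h2.trans h, h3⟩

lemma VW_one (W : ℕ) : (1 : ℚ⟦X⟧) ∈ VW W := VW_mem (w := []) nil_adm (Nat.zero_le _)

lemma VW_mul {W W' : ℕ} {f g : ℚ⟦X⟧} (hf : f ∈ VW W) (hg : g ∈ VW W') : f * g ∈ VW (W + W') := by
  unfold VW at hf hg
  induction hf using Submodule.span_induction with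
  | mem f hf =>
    obtain ⟨u, hu, hul, rfl⟩ := hf
    induction hg using Submodule.span_induction with
    | mem g hg =>
      obtain ⟨v, hv, hvl, rfl⟩ := hg
      rw [LL_mul α1 _ u v rfl hu hv]
      refine list_sum_mem ?_
      intro x hx
      rw [List.mem_map] at hx
      obtain ⟨w, hw, rfl⟩ := hx
      exact VW_mem (adm_sh _ u v rfl hu hv w hw) (by rw [length_sh _ u v rfl w hw]; omega)
    | zero => rw [mul_zero]; exact Submodule.zero_mem _
    | add g g' _ _ h h' => rw [mul_add]; exact Submodule.add_mem _ h h'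
    | smul c g _ h => rw [mul_smul_comm]; exact Submodule.smul_mem _ _ h
  | zero => rw [zero_mul]; exact Submodule.zero_mem _
  | add f f' _ _ h h' => rw [add_mul]; exact Submodule.add_mem _ h h'
  | smul c f _ h => rw [smul_mul_assoc]; exact Submodule.smul_mem _ _ h

/-- polynomials with coefficients of bounded weight -/
def PW (W : ℕ) (P : Polynomial ℚ⟦X⟧) : Prop := ∀ e, P.coeff e ∈ VW W

lemma PW_mul {W W' : ℕ} {P Q : Polynomial ℚ⟦X⟧} (hP : PW W P) (hQ : PW W' Q) : PW (W + W') (P * Q) := by
  intro e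
  rw [Polynomial.coeff_mul]
  exact Submodule.sum_mem _ fun p _ => VW_mul (hP _) (hQ _)

lemma PW_mono {W W' : ℕ} (h : W ≤ W') {P : Polynomial ℚ⟦X⟧} (hP : PW W P) : PW W' P := fun e => VW_mono h (hP e)

lemma PW_one (W : ℕ) : PW W 1 := by
  intro e
  rw [Polynomial.coeff_one]
  split_ifs
  · exact VW_one W
  · exact Submodule.zero_mem _

lemma PW_pow {W : ℕ} {P : Polynomial ℚ⟦X⟧} (hP : PW W P) (n : ℕ) : PW (n * W) (P ^ n) := by
  induction n with
  | zero => rw [pow_zero]; exact PW_one _
  | succ n ih =>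
    rw [pow_succ]
    refine PW_mono (le_of_eq ?_) (PW_mul ih hP)
    ring

lemma PW_C {W : ℕ} {f : ℚ⟦X⟧} (hf : f ∈ VW W) : PW W (Polynomial.C f) := by
  intro e
  rw [Polynomial.coeff_C]
  split_ifs
  · exact hf
  · exact Submodule.zero_mem _

lemma PW_add {W : ℕ} {P Q : Polynomial ℚ⟦X⟧} (hP : PW W P) (hQ : PW W Q) : PW W (P + Q) := by
  intro e
  rw [Polynomial.coeff_add]
  exact Submodule.add_mem _ (hP e) (hQ e)

lemma PW_X {W : ℕ} {P : Polynomial ℚ⟦X⟧} (hP : PW W P) : PW W (Polynomial.X * P) := by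
  intro e
  rcases e with _ | e
  · rw [Polynomial.coeff_X_mul_zero]
    exact Submodule.zero_mem _
  · rw [Polynomial.coeff_X_mul]
    exact hP e

/-- the first number as a polynomial in the logarithm -/
noncomputable def PA : Polynomial ℚ⟦X⟧ := Polynomial.C (L [none, none, some 0]) + Polynomial.X * Polynomial.C (L [none, some 0]) +
  Polynomial.X * (Polynomial.X * Polynomial.C ((1 / 3 : ℚ) • L [some 0]))

/-- the second number as a polynomial in the logarithm -/
noncomputable def PC : Polynomial ℚ⟦X⟧ := Polynomial.C (L [none, some 0, some 0]) +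
  Polynomial.X * Polynomial.C ((1 / 3 : ℚ) • L [some 0, some 0])

lemma PA_PW : PW 3 PA := by
  refine PW_add (PW_add (PW_C ?_) (PW_X (PW_C ?_))) (PW_X (PW_X (PW_C ?_)))
  · exact VW_mem (by unfold adm; simp) (by simp)
  · exact VW_mem (by unfold adm; simp) (by simp)
  · exact Submodule.smul_mem _ _ (VW_mem (by unfold adm; simp) (by simp))

lemma PC_PW : PW 3 PC := by
  refine PW_add (PW_C ?_) (PW_X (PW_C ?_))
  · exact VW_mem (by unfold adm; simp) (by simp)
  · exact Submodule.smul_mem _ _ (VW_mem (by unfold adm; simp) (by simp))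

lemma PA_deg : PA.natDegree ≤ 2 := by
  unfold PA
  refine Polynomial.natDegree_add_le_of_degree_le (Polynomial.natDegree_add_le_of_degree_le ?_ ?_) ?_
  · rw [Polynomial.natDegree_C]; omega
  · refine Polynomial.natDegree_mul_le.trans ?_
    rw [Polynomial.natDegree_C]
    have := Polynomial.natDegree_X_le (R := ℚ⟦X⟧)
    omega
  · refine Polynomial.natDegree_mul_le.trans ?_
    have h1 := Polynomial.natDegree_mul_le (p := (Polynomial.X : Polynomial ℚ⟦X⟧)) (q := Polynomial.C ((1 / 3 : ℚ) • L [some 0]))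
    rw [Polynomial.natDegree_C] at h1
    have := Polynomial.natDegree_X_le (R := ℚ⟦X⟧)
    omega

lemma PC_deg : PC.natDegree ≤ 2 := by
  unfold PC
  refine Polynomial.natDegree_add_le_of_degree_le ?_ ?_
  · rw [Polynomial.natDegree_C]; omega
  · refine Polynomial.natDegree_mul_le.trans ?_
    rw [Polynomial.natDegree_C]
    have := Polynomial.natDegree_X_le (R := ℚ⟦X⟧)
    omega

lemma PA0 : PA.coeff 0 = L [none, none, some 0] := by
  unfold PA
  rw [Polynomial.coeff_add, Polynomial.coeff_add, Polynomial.coeff_C_zero, Polynomial.coeff_X_mul_zero, Polynomial.coeff_X_mul_zero,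
    add_zero, add_zero]

lemma PC0 : PC.coeff 0 = L [none, some 0, some 0] := by
  unfold PC
  rw [Polynomial.coeff_add, Polynomial.coeff_C_zero, Polynomial.coeff_X_mul_zero, add_zero]

end Pool.Agent.Q189.Z3
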