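import Pool.Agent.Q189.HL.Shuf
import Pool.Agent.Y119.ML.Ev

/-!
# The trilogarithm: derivatives
-/

set_option autoImplicit false

open PowerSeries Filter Topology

namespace Pool.Agent.Q189.Z3

open Pool.Agent.Y119.ML (LL UU In geo adm adm_tail adm_none const_LL theta_LL theta_In const_In WI S S_zero)

/-- the coefficients are at most one -/
def B1 (f : ℚ⟦X⟧) : Prop := ∀ m, |((coeff m f : ℚ) : ℝ)| ≤ 1

lemma summ {f : ℚ⟦X⟧} (h : B1 f) {x : ℝ} (hx : |x| < 1) : Summable fun m : ℕ => ((coeff m f : ℚ) : ℝ) * x ^ m := by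
  refine Summable.of_norm_bounded (g := fun m => |x| ^ m) (summable_geometric_of_lt_one (abs_nonneg _) hx) fun m => ?_
  rw [norm_mul, norm_pow, Real.norm_eq_abs, Real.norm_eq_abs]
  exact mul_le_of_le_one_left (by positivity) (h m)

lemma summ' {f : ℚ⟦X⟧} (h : B1 f) {x : ℝ} (hx : |x| < 1) :
    Summable fun m : ℕ => ((coeff m (d⁄dX ℚ f) : ℚ) : ℝ) * x ^ m := by
  have e1 := summable_pow_mul_geometric_of_norm_lt_one 1 (r := |x|) (by
      rw [Real.norm_eq_abs, abs_abs]; exact hx)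
  have e2 := summable_geometric_of_lt_one (r := |x|) (abs_nonneg _) hx
  refine Summable.of_norm_bounded (e1.add e2) fun m => ?_
  rw [coeff_derivative, norm_mul, norm_pow, Real.norm_eq_abs, Real.norm_eq_abs]
  push_cast
  rw [abs_mul, pow_one]
  have h1 : |((m : ℝ) + 1)| = m + 1 := abs_of_nonneg (by positivity)
  rw [h1]
  have h2 := h (m + 1)
  have h3 : 0 ≤ |x| ^ m := by positivity
  have h4 : (0 : ℝ) ≤ (m : ℝ) + 1 := by positivity
  calc |((coeff (m + 1) f : ℚ) : ℝ)| * ((m : ℝ) + 1) * |x| ^ m ≤ 1 * ((m : ℝ) + 1) * |x| ^ m :=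
        mul_le_mul_of_nonneg_right (mul_le_mul_of_nonneg_right h2 h4) h3
    _ = _ := by ring

theorem hd {f : ℚ⟦X⟧} (h : B1 f) {x : ℝ} (hx : |x| < 1) : HasDerivAt (S f) (S (d⁄dX ℚ f) x) x := by
  obtain ⟨ρ, h1, h2⟩ := exists_between hx
  have hρ : 0 < ρ := (abs_nonneg x).trans_lt h1
  have hbound : ∀ (n : ℕ) (y : ℝ), y ∈ Metric.ball (0 : ℝ) ρ →
      ‖((coeff n f : ℚ) : ℝ) * (n * y ^ (n - 1))‖ ≤ (n : ℝ) * ρ ^ (n - 1) := by
    intro n y hy
    rw [mem_ball_zero_iff, Real.norm_eq_abs] at hy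
    rw [norm_mul, norm_mul, norm_pow, Real.norm_eq_abs, Real.norm_eq_abs, Real.norm_eq_abs, Nat.abs_cast]
    calc |((coeff n f : ℚ) : ℝ)| * ((n : ℝ) * |y| ^ (n - 1)) ≤ 1 * ((n : ℝ) * ρ ^ (n - 1)) := by
            gcongr
            exact h _
      _ = _ := one_mul _
  have hsum : Summable fun n : ℕ => (n : ℝ) * ρ ^ (n - 1) := by
    rw [← summable_nat_add_iff 1]
    simp only [Nat.add_sub_cancel]
    have e1 := summable_pow_mul_geometric_of_norm_lt_one 1 (r := ρ) (by
      rw [Real.norm_eq_abs, abs_of_pos hρ]; exact h2)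
    have e2 := summable_geometric_of_lt_one (r := ρ) hρ.le h2
    refine (e1.add e2).congr fun n => ?_
    push_cast
    ring
  have h0 : Summable fun n : ℕ => ((coeff n f : ℚ) : ℝ) * (0 : ℝ) ^ n := summ h (by simp)
  have h3 := hasDerivAt_tsum_of_isPreconnected (g := fun (n : ℕ) (y : ℝ) => ((coeff n f : ℚ) : ℝ) * y ^ n)
    (g' := fun (n : ℕ) (y : ℝ) => ((coeff n f : ℚ) : ℝ) * (n * y ^ (n - 1))) hsum Metric.isOpen_ball
    (convex_ball (0 : ℝ) ρ).isPreconnected (fun n y _ => (hasDerivAt_pow n y).const_mul _) hbound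
    (Metric.mem_ball_self hρ) h0 (y := x) (by rw [mem_ball_zero_iff]; exact h1)
  have h4 : ∑' n : ℕ, ((coeff n f : ℚ) : ℝ) * (n * x ^ (n - 1)) = S (d⁄dX ℚ f) x := by
    unfold S
    rw [Summable.tsum_eq_zero_add]
    · simp only [Nat.cast_zero, zero_mul, mul_zero, zero_add, Nat.add_sub_cancel]
      refine tsum_congr fun n => ?_
      rw [coeff_derivative]
      push_cast
      ring
    · exact Summable.of_norm_bounded hsum fun n => hbound n x (by rw [mem_ball_zero_iff]; exact h1)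
  rw [← h4]
  exact h3

/-- multiplication by the variable -/
lemma S_Xmul (f : ℚ⟦X⟧) {x : ℝ} (hs : Summable fun m : ℕ => ((coeff m f : ℚ) : ℝ) * x ^ m) : S (X * f) x = x * S f x := by
  unfold S
  rw [Summable.tsum_eq_zero_add]
  · rw [coeff_zero_X_mul, Rat.cast_zero, zero_mul, zero_add, ← tsum_mul_left]
    refine tsum_congr fun m => ?_
    rw [coeff_succ_X_mul, pow_succ]
    ring
  · rw [← summable_nat_add_iff 1]
    refine (hs.mul_left x).congr fun m => ?_
    rw [coeff_succ_X_mul, pow_succ]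
    ring

/-- the letter `1` -/
abbrev α1 : Fin 1 → ℤ := fun _ => 1

/-- the words -/
noncomputable abbrev L (w : List (Option (Fin 1))) : ℚ⟦X⟧ := LL α1 0 w

lemma UU0 : UU α1 0 none = 1 := Pool.Agent.Q189.HL.UU_none α1

lemma UU1 (a : Fin 1) : UU α1 0 (some a) = X * geo 1 := by
  have h5 : geo ((0 : ℕ) : ℤ) = 1 := Pool.Agent.Q189.HL.geo_zero
  have h6 : geo (((0 : ℕ) : ℤ) + α1 a) = geo 1 := by simp
  show X * geo ((0 : ℕ) : ℤ) * geo (((0 : ℕ) : ℤ) + α1 a) = _
  rw [h5, h6, mul_one]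

lemma coeff_geo_mul (f : ℚ⟦X⟧) (m : ℕ) : coeff m (geo 1 * f) = ∑ l ∈ Finset.range (m + 1), coeff l f := by
  rw [coeff_mul, Finset.Nat.sum_antidiagonal_eq_sum_range_succ_mk, ← Finset.sum_range_reflect]
  refine Finset.sum_congr rfl fun l hl => ?_
  have hl' := Finset.mem_range.1 hl
  have h1 : m - (m + 1 - 1 - l) = l := by omega
  rw [h1, geo, coeff_mk]
  simp

theorem B1L (w : List (Option (Fin 1))) : ∀ m, 0 ≤ coeff m (L w) ∧ coeff m (L w) ≤ 1 := by
  induction w with
  | nil =>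
    intro m
    show 0 ≤ coeff m (1 : ℚ⟦X⟧) ∧ coeff m (1 : ℚ⟦X⟧) ≤ 1
    rw [coeff_one]
    split_ifs <;> norm_num
  | cons o w ih =>
    intro m
    show 0 ≤ coeff m (In (UU α1 0 o * L w)) ∧ coeff m (In (UU α1 0 o * L w)) ≤ 1
    rw [In, coeff_mk]
    rcases o with _ | a
    · rw [UU0, one_mul]
      rcases m with _ | m
      · simp
      · have hm : (1 : ℚ) ≤ ((m + 1 : ℕ) : ℚ) := by
          push_cast
          linarith [(Nat.cast_nonneg m : (0 : ℚ) ≤ m)]
        have h0 : (0 : ℚ) < ((m + 1 : ℕ) : ℚ) := by linarith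
        refine ⟨div_nonneg (ih _).1 h0.le, ?_⟩
        rw [div_le_one h0]
        exact (ih _).2.trans hm
    · rw [UU1, mul_assoc]
      rcases m with _ | m
      · simp
      · have hm : (1 : ℚ) ≤ ((m + 1 : ℕ) : ℚ) := by
          push_cast
          linarith [(Nat.cast_nonneg m : (0 : ℚ) ≤ m)]
        have h0 : (0 : ℚ) < ((m + 1 : ℕ) : ℚ) := by linarith
        rw [coeff_succ_X_mul, coeff_geo_mul]
        refine ⟨div_nonneg (Finset.sum_nonneg fun l _ => (ih l).1) h0.le, ?_⟩
        rw [div_le_one h0]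
        refine (Finset.sum_le_sum fun l _ => (ih l).2).trans (le_of_eq ?_)
        simp

lemma B1w (w : List (Option (Fin 1))) : B1 (L w) := by
  intro m
  have h1 : (0 : ℝ) ≤ ((coeff m (L w) : ℚ) : ℝ) := by exact_mod_cast (B1L w m).1
  have h2 : ((coeff m (L w) : ℚ) : ℝ) ≤ 1 := by exact_mod_cast (B1L w m).2
  rw [abs_of_nonneg h1]
  exact h2

/-- the derivative for the first letter `none` -/
theorem hd0 {w : List (Option (Fin 1))} (hw : adm (none :: w)) {x : ℝ} (hx : |x| < 1) (hx0 : x ≠ 0) :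
    HasDerivAt (S (L (none :: w))) (S (L w) x / x) x := by
  have h1 := hd (B1w (none :: w)) hx
  have h2 : S (d⁄dX ℚ (L (none :: w))) x = S (L w) x / x := by
    have h3 := theta_LL α1 0 hw
    rw [UU0, one_mul] at h3
    rw [eq_div_iff hx0, mul_comm, ← S_Xmul _ (summ' (B1w _) hx)]
    exact congrArg (fun f => S f x) h3
  rw [h2] at h1
  exact h1

/-- the derivative for the first letter `some 0` -/
theorem hd1 {w : List (Option (Fin 1))} (hw : adm (some 0 :: w)) {x : ℝ} (hx : |x| < 1) :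
    HasDerivAt (S (L (some 0 :: w))) (S (L w) x / (1 - x)) x := by
  have h1 := hd (B1w (some 0 :: w)) hx
  have h2 : S (d⁄dX ℚ (L (some 0 :: w))) x = S (L w) x / (1 - x) := by
    have h3 := theta_LL α1 0 hw
    rw [UU1] at h3
    have h4 : d⁄dX ℚ (L (some 0 :: w)) = geo 1 * L w := by
      have h5 : (X : ℚ⟦X⟧) * d⁄dX ℚ (L (some 0 :: w)) = X * (geo 1 * L w) := by
        rw [← mul_assoc]
        exact h3
      exact mul_left_cancel₀ X_ne_zero h5
    have h5 : d⁄dX ℚ (L (some 0 :: w)) = L w + X * d⁄dX ℚ (L (some 0 :: w)) := by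
      rw [h4]
      have h6 := Pool.Agent.Y119.ML.geo_eq 1
      have h7 : geo 1 = 1 + X * geo 1 := by
        conv_lhs => rw [h6]
        push_cast
        ring
      conv_lhs => rw [h7]
      ring
    have hx1 : 1 - x ≠ 0 := by
      have := (abs_lt.1 hx).2
      linarith
    rw [eq_div_iff hx1]
    have h6 : S (d⁄dX ℚ (L (some 0 :: w))) x = S (L w) x + x * S (d⁄dX ℚ (L (some 0 :: w))) x := by
      rw [← S_Xmul _ (summ' (B1w _) hx)]
      have h8 : Summable fun m : ℕ => ((coeff m (X * d⁄dX ℚ (L (some 0 :: w))) : ℚ) : ℝ) * x ^ m := by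
        rw [← summable_nat_add_iff 1]
        refine ((summ' (B1w (some 0 :: w)) hx).mul_left x).congr fun m => ?_
        rw [coeff_succ_X_mul, pow_succ]
        ring
      conv_lhs => rw [h5]
      unfold S
      rw [← (summ (B1w w) hx).tsum_add h8]
      refine tsum_congr fun m => ?_
      rw [map_add]
      push_cast
      ring
    linear_combination h6
  rw [h2] at h1
  exact h1

lemma S0 {w : List (Option (Fin 1))} (hw : w ≠ []) : S (L w) 0 = 0 := by
  rw [S_zero, const_LL α1 0 hw, Rat.cast_zero]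

lemma Snil (x : ℝ) : S (L []) x = 1 := by
  show S (1 : ℚ⟦X⟧) x = 1
  unfold S
  rw [tsum_eq_single 0]
  · simp
  · intro m hm
    rw [coeff_one, if_neg hm]
    simp

/-- a function with derivative zero -/
lemma const_of {f : ℝ → ℝ} (h : ∀ x, |x| < 1 → HasDerivAt f 0 x) {x : ℝ} (hx : |x| < 1) : f x = f 0 := by
  have h1 : (Metric.ball (0 : ℝ) 1).EqOn f fun _ => f 0 := by
    intro y hy
    have h2 := (convex_ball (0 : ℝ) 1).isPreconnected
    refine (convex_ball (0 : ℝ) 1).is_const_of_fderivWithin_eq_zero (𝕜 := ℝ) (f := f) ?_ ?_ hy (Metric.mem_ball_self one_pos)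
    · intro z hz
      rw [mem_ball_zero_iff] at hz
      exact (h z hz).differentiableAt.differentiableWithinAt
    · intro z hz
      have hz' := hz
      rw [mem_ball_zero_iff] at hz'
      rw [fderivWithin_of_isOpen Metric.isOpen_ball hz, (h z hz').hasFDerivAt.fderiv]
      ext
      simp
  exact h1 (by rw [mem_ball_zero_iff]; exact hx)

theorem SL1 {x : ℝ} (hx : |x| < 1) : S (L [some 0]) x = -Real.log (1 - x) := by
  have h1 : ∀ y : ℝ, |y| < 1 → HasDerivAt (fun y => S (L [some 0]) y + Real.log (1 - y)) 0 y := by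
    intro y hy
    have hy1 : 1 - y ≠ 0 := by
      have := (abs_lt.1 hy).2
      linarith
    have h2 := (hd1 (w := []) (by unfold adm; simp) hy).add (((hasDerivAt_id y).const_sub 1).log hy1)
    refine h2.congr_deriv ?_
    rw [Snil]
    simp only [id]
    field_simp
    ring
  have h2 := const_of h1 hx
  simp only [S0 (by simp : [some (0 : Fin 1)] ≠ []), sub_zero, Real.log_one, add_zero] at h2
  linarith

theorem SL11 {x : ℝ} (hx : |x| < 1) : S (L [some 0, some 0]) x = Real.log (1 - x) ^ 2 / 2 := by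
  have h1 : ∀ y : ℝ, |y| < 1 → HasDerivAt (fun y => S (L [some 0, some 0]) y - Real.log (1 - y) ^ 2 / 2) 0 y := by
    intro y hy
    have hy1 : 1 - y ≠ 0 := by
      have := (abs_lt.1 hy).2
      linarith
    have h2 := (hd1 (w := [some 0]) (by unfold adm; simp) hy).sub (((((hasDerivAt_id y).const_sub 1).log hy1).pow 2).div_const 2)
    refine h2.congr_deriv ?_
    rw [SL1 hy]
    simp only [id]
    field_simp
    ring
  have h2 := const_of h1 hx
  simp only [S0 (by simp : [some (0 : Fin 1), some 0] ≠ []), sub_zero, Real.log_one] at h2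
  norm_num at h2
  linarith

end Pool.Agent.Q189.Z3
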