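import Pool.Agent.Q189.Z3.Ana

/-!
# The single-valued trilogarithm on the real line: the values at `x`, `1 - x` and `x / (x - 1)`
-/

set_option autoImplicit false

open PowerSeries Filter Topology

namespace Pool.Agent.Q189.Z3

open Pool.Agent.Y119.ML (LL UU In geo adm adm_tail adm_none const_LL theta_LL theta_In const_In WI S S_zero)

/-- the polylogarithms -/
noncomputable def Li (s : ℕ) (x : ℝ) : ℝ := ∑' m : ℕ, x ^ (m + 1) / ((m : ℝ) + 1) ^ s

/-- the single-valued trilogarithm, in the interval `-1 < x < 1` (the logarithm is that of `|x|`) -/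
noncomputable def L3 (x : ℝ) : ℝ := Li 3 x - Real.log x * Li 2 x + 1 / 3 * Real.log x ^ 2 * Li 1 x

lemma coeff_rep (j : ℕ) (m : ℕ) : coeff (m + 1) (L (List.replicate j none ++ [some 0])) = 1 / ((m : ℚ) + 1) ^ (j + 1) := by
  induction j with
  | zero =>
    show coeff (m + 1) (In (UU α1 0 (some 0) * L [])) = _
    rw [UU1, In, coeff_mk, mul_assoc, coeff_succ_X_mul, coeff_geo_mul]
    show (∑ l ∈ Finset.range (m + 1), coeff l (1 : ℚ⟦X⟧)) / ((m + 1 : ℕ) : ℚ) = _
    have h1 : ∑ l ∈ Finset.range (m + 1), coeff l (1 : ℚ⟦X⟧) = 1 := by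
      rw [Finset.sum_eq_single_of_mem 0 (by simp)]
      · simp
      · intro l _ hl
        rw [coeff_one, if_neg hl]
    rw [h1]
    push_cast
    ring
  | succ j ih =>
    show coeff (m + 1) (In (UU α1 0 none * L (List.replicate j none ++ [some 0]))) = _
    rw [UU0, one_mul, In, coeff_mk, ih]
    push_cast
    field_simp
    ring

lemma coeff_zero_L {w : List (Option (Fin 1))} (hw : w ≠ []) : coeff 0 (L w) = 0 := by
  rw [coeff_zero_eq_constantCoeff_apply]
  exact const_LL α1 0 hw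

lemma Li_eq (j : ℕ) {x : ℝ} (hx : |x| < 1) : Li (j + 1) x = S (L (List.replicate j none ++ [some 0])) x := by
  unfold S Li
  rw [(summ (B1w _) hx).tsum_eq_zero_add, coeff_zero_L (by simp), Rat.cast_zero, zero_mul, zero_add]
  refine tsum_congr fun m => ?_
  rw [coeff_rep]
  push_cast
  ring

lemma Li1_eq {x : ℝ} (hx : |x| < 1) : Li 1 x = S (L [some 0]) x := Li_eq 0 hx

lemma Li2_eq {x : ℝ} (hx : |x| < 1) : Li 2 x = S (L [none, some 0]) x := Li_eq 1 hx

lemma Li3_eq {x : ℝ} (hx : |x| < 1) : Li 3 x = S (L [none, none, some 0]) x := Li_eq 2 hx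

lemma L3_eq {x : ℝ} (hx : |x| < 1) : L3 x = S (L [none, none, some 0]) x - Real.log x * S (L [none, some 0]) x -
    1 / 3 * Real.log x ^ 2 * Real.log (1 - x) := by
  unfold L3
  rw [Li1_eq hx, Li2_eq hx, Li3_eq hx, SL1 hx]
  ring

/-- the derivative -/
theorem hdL3 {u : ℝ} (hu : |u| < 1) (hu0 : u ≠ 0) :
    HasDerivAt L3 (1 / 3 * Real.log u * (Real.log (1 - u) / u + Real.log u / (1 - u))) u := by
  have h1 : L3 =ᶠ[𝓝 u] fun x => S (L [none, none, some 0]) x - Real.log x * S (L [none, some 0]) x -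
      1 / 3 * Real.log x ^ 2 * Real.log (1 - x) := by
    have h2 : ∀ᶠ x in 𝓝 u, |x| < 1 := (isOpen_lt continuous_abs continuous_const).mem_nhds hu
    filter_upwards [h2] with x hx
    exact L3_eq hx
  refine HasDerivAt.congr_of_eventuallyEq ?_ h1
  have hu1 : 1 - u ≠ 0 := by
    have := (abs_lt.1 hu).2
    linarith
  have e1 := hd0 (w := [none, some 0]) (by unfold adm; simp) hu hu0
  have e2 := hd0 (w := [some 0]) (by unfold adm; simp) hu hu0
  have e3 := Real.hasDerivAt_log hu0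
  have e4 : HasDerivAt (fun x : ℝ => Real.log (1 - x)) (-1 / (1 - u)) u := ((hasDerivAt_id u).const_sub 1).log hu1
  have e5 := (e1.sub (e3.mul e2)).sub (((e3.pow 2).const_mul (1 / 3)).mul e4)
  refine e5.congr_deriv ?_
  rw [SL1 hu]
  simp only [Pi.pow_apply]
  field_simp
  ring

/-- functions with derivative zero in an interval and a limit at the endpoint -/
lemma const_lim {f : ℝ → ℝ} {b c : ℝ} (h : ∀ x, 0 < x → x < b → HasDerivAt f 0 x) (hl : Tendsto f (𝓝[>] 0) (𝓝 c))
    {x : ℝ} (hx : 0 < x) (hxb : x < b) : f x = c := by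
  have h1 : ∀ y, 0 < y → y < b → f y = f x := by
    intro y hy hyb
    have hconv : Convex ℝ (Set.Ioo (0 : ℝ) b) := convex_Ioo 0 b
    refine hconv.is_const_of_fderivWithin_eq_zero (𝕜 := ℝ) (f := f) ?_ ?_ ⟨hy, hyb⟩ ⟨hx, hxb⟩
    · intro z hz
      exact (h z hz.1 hz.2).differentiableAt.differentiableWithinAt
    · intro z hz
      rw [fderivWithin_of_isOpen isOpen_Ioo hz, (h z hz.1 hz.2).hasFDerivAt.fderiv]
      ext
      simp
  have h2 : Tendsto f (𝓝[>] 0) (𝓝 (f x)) := by
    refine tendsto_const_nhds.congr' ?_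
    have h3 : ∀ᶠ y in 𝓝[>] (0 : ℝ), y < b := (eventually_lt_nhds (hx.trans hxb)).filter_mono nhdsWithin_le_nhds
    filter_upwards [h3, self_mem_nhdsWithin] with y hy hy0
    exact (h1 y hy0 hy).symm
  exact tendsto_nhds_unique h2 hl

/-- powers of the logarithm times small functions -/
lemma lim_log {f : ℝ → ℝ} {f' : ℝ} (h : HasDerivAt f f' 0) (h0 : f 0 = 0) :
    Tendsto (fun x => Real.log x * f x) (𝓝[>] 0) (𝓝 0) ∧ Tendsto (fun x => Real.log x ^ 2 * f x) (𝓝[>] 0) (𝓝 0) := by
  have h1 : Tendsto (fun x => x⁻¹ * f x) (𝓝[>] 0) (𝓝 f') := by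
    have h2 := h.tendsto_slope_zero
    simp only [zero_add, h0, sub_zero, smul_eq_mul] at h2
    exact h2.mono_left (nhdsWithin_mono _ fun x hx => ne_of_gt hx)
  have h2 := tendsto_log_mul_rpow_nhdsGT_zero (r := 1 / 2) (by norm_num)
  have h3 : Tendsto (fun x : ℝ => x ^ (1 / 2 : ℝ)) (𝓝[>] 0) (𝓝 0) := by
    have h4 := (Real.continuousAt_rpow_const 0 (1 / 2 : ℝ) (Or.inr (by norm_num))).tendsto
    rw [Real.zero_rpow (by norm_num)] at h4
    exact h4.mono_left nhdsWithin_le_nhds
  have hsq : ∀ x : ℝ, 0 < x → x ^ (1 / 2 : ℝ) * x ^ (1 / 2 : ℝ) = x := by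
    intro x hx
    rw [← Real.rpow_add hx]
    norm_num
  constructor
  · have h5 := (h2.mul h3).mul h1
    simp only [zero_mul] at h5
    refine h5.congr' ?_
    filter_upwards [self_mem_nhdsWithin] with x hx
    have hx' : (0 : ℝ) < x := hx
    have h6 := hsq x hx'
    have h7 : x⁻¹ * x = 1 := inv_mul_cancel₀ hx'.ne'
    linear_combination (Real.log x * x⁻¹ * f x) * h6 + (Real.log x * f x) * h7
  · have h5 := (h2.mul h2).mul h1
    simp only [zero_mul] at h5
    refine h5.congr' ?_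
    filter_upwards [self_mem_nhdsWithin] with x hx
    have hx' : (0 : ℝ) < x := hx
    have h6 := hsq x hx'
    have h7 : x⁻¹ * x = 1 := inv_mul_cancel₀ hx'.ne'
    linear_combination (Real.log x ^ 2 * x⁻¹ * f x) * h6 + (Real.log x ^ 2 * f x) * h7

/-- the polylogarithms are continuous at `1` -/
lemma Li_cont {s : ℕ} (hs : 2 ≤ s) : Tendsto (fun x : ℝ => Li s (1 - x)) (𝓝[>] 0) (𝓝 (Li s 1)) := by
  have h1 : ContinuousOn (Li s) (Set.Icc (-1) 1) := by
    have hsum : Summable fun m : ℕ => 1 / ((m : ℝ) + 1) ^ s := by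
      have h2 := (Real.summable_one_div_nat_pow (p := s)).2 (by omega)
      rw [← summable_nat_add_iff 1] at h2
      refine h2.congr fun m => ?_
      push_cast
      rfl
    refine continuousOn_tsum (fun m => by fun_prop) hsum fun m x hx => ?_
    rw [norm_div, norm_pow, norm_pow, Real.norm_eq_abs, Real.norm_eq_abs, abs_of_nonneg (by positivity : (0 : ℝ) ≤ (m : ℝ) + 1)]
    refine div_le_div_of_nonneg_right (pow_le_one₀ (abs_nonneg _) (abs_le.2 hx)) (by positivity)
  have h2 : ContinuousWithinAt (Li s) (Set.Icc (-1) 1) 1 := h1 1 (by constructor <;> norm_num)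
  have h3 : Tendsto (fun x : ℝ => 1 - x) (𝓝[>] 0) (𝓝[Set.Icc (-1) 1] 1) := by
    refine tendsto_nhdsWithin_iff.2 ⟨?_, ?_⟩
    · have h4 : ContinuousAt (fun x : ℝ => 1 - x) 0 := by fun_prop
      have h5 := h4.tendsto
      simp only [sub_zero] at h5
      exact h5.mono_left nhdsWithin_le_nhds
    · have h4 : ∀ᶠ y in 𝓝[>] (0 : ℝ), y < 1 := (eventually_lt_nhds one_pos).filter_mono nhdsWithin_le_nhds
      filter_upwards [h4, self_mem_nhdsWithin] with y hy hy0
      have hy0' : (0 : ℝ) < y := hy0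
      constructor <;> linarith
  exact h2.tendsto.comp h3

lemma log1 : HasDerivAt (fun x : ℝ => Real.log (1 - x)) (-1 / (1 - 0)) 0 :=
  ((hasDerivAt_id (0 : ℝ)).const_sub 1).log (by norm_num)

lemma log1t : Tendsto (fun x : ℝ => Real.log (1 - x)) (𝓝[>] 0) (𝓝 0) := by
  have h := log1.continuousAt.tendsto
  simp only [sub_zero, Real.log_one] at h
  exact h.mono_left nhdsWithin_le_nhds

/-- **the value at `1 - x`** -/
theorem valE {x : ℝ} (hx : 0 < x) (hx1 : x < 1) :
    L3 (1 - x) = Li 3 1 - S (L [none, some 0, some 0]) x + 1 / 6 * Real.log x * Real.log (1 - x) ^ 2 := by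
  have hder : ∀ x : ℝ, 0 < x → x < 1 → HasDerivAt (fun x => L3 (1 - x) + S (L [none, some 0, some 0]) x -
      1 / 6 * Real.log x * Real.log (1 - x) ^ 2) 0 x := by
    intro x hx hx1
    have hax : |x| < 1 := abs_lt.2 ⟨by linarith, hx1⟩
    have hax' : |1 - x| < 1 := abs_lt.2 ⟨by linarith, by linarith⟩
    have hx1' : 1 - x ≠ 0 := by linarith
    have e0 : HasDerivAt (fun x : ℝ => 1 - x) (-1) x := by
      simpa using (hasDerivAt_id x).const_sub 1
    have e1 : HasDerivAt (fun x => L3 (1 - x)) ((1 / 3 * Real.log (1 - x) * (Real.log (1 - (1 - x)) / (1 - x) +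
        Real.log (1 - x) / (1 - (1 - x)))) * (-1)) x := (hdL3 hax' hx1').comp x e0
    have e2 := hd0 (w := [some 0, some 0]) (by unfold adm; simp) hax hx.ne'
    have e3 := Real.hasDerivAt_log hx.ne'
    have e4 : HasDerivAt (fun x : ℝ => Real.log (1 - x)) (-1 / (1 - x)) x := ((hasDerivAt_id x).const_sub 1).log hx1'
    have e5 := (e1.add e2).sub ((e3.const_mul (1 / 6)).mul (e4.pow 2))
    refine e5.congr_deriv ?_
    rw [SL11 hax]
    have h6 : 1 - (1 - x) = x := by ring
    rw [h6]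
    simp only [Pi.pow_apply]
    field_simp
    ring
  have hlim : Tendsto (fun x => L3 (1 - x) + S (L [none, some 0, some 0]) x - 1 / 6 * Real.log x * Real.log (1 - x) ^ 2)
      (𝓝[>] 0) (𝓝 (Li 3 1)) := by
    have t1 := Li_cont (s := 3) (by norm_num)
    have t2 := log1t.mul (Li_cont (s := 2) le_rfl)
    have t3 := (lim_log (f := fun x : ℝ => Real.log (1 - x) ^ 2) (log1.pow 2) (by simp)).1
    have t4 : Tendsto (S (L [none, some 0, some 0])) (𝓝[>] 0) (𝓝 0) := by
      have h := (hd (B1w [none, some 0, some 0]) (x := 0) (by simp)).continuousAt.tendsto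
      rw [S0 (by simp)] at h
      exact h.mono_left nhdsWithin_le_nhds
    have t5 := (((t1.sub t2).sub (t3.const_mul (1 / 3))).add t4).sub (t3.const_mul (1 / 6))
    simp only [zero_mul, mul_zero, sub_zero, add_zero] at t5
    refine t5.congr' ?_
    have h4 : ∀ᶠ y in 𝓝[>] (0 : ℝ), y < 1 := (eventually_lt_nhds one_pos).filter_mono nhdsWithin_le_nhds
    filter_upwards [h4, self_mem_nhdsWithin] with y hy hy0
    have hy0' : (0 : ℝ) < y := hy0
    have hay : |1 - y| < 1 := abs_lt.2 ⟨by linarith, by linarith⟩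
    have h5 : Li 1 (1 - y) = -Real.log y := by
      rw [Li1_eq hay, SL1 hay]
      congr 2
      ring
    unfold L3
    rw [h5]
    ring
  have h := const_lim hder hlim hx hx1
  linarith

/-- **the value at `x / (x - 1)`** -/
theorem valG {x : ℝ} (hx : 0 < x) (hx1 : x < 1 / 2) :
    L3 (x / (x - 1)) = -S (L [none, none, some 0]) x + S (L [none, some 0, some 0]) x + Real.log x * S (L [none, some 0]) x -
      1 / 6 * Real.log x * Real.log (1 - x) ^ 2 + 1 / 3 * Real.log x ^ 2 * Real.log (1 - x) := by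
  have hy : ∀ x : ℝ, 0 < x → x < 1 / 2 → |x / (x - 1)| < 1 ∧ x / (x - 1) ≠ 0 ∧ Real.log (x / (x - 1)) = Real.log x - Real.log (1 - x) ∧
      Real.log (1 - x / (x - 1)) = -Real.log (1 - x) := by
    intro x hx hx1
    have h1 : x - 1 < 0 := by linarith
    have h2 : x / (x - 1) = -(x / (1 - x)) := by
      rw [← neg_sub 1 x, div_neg]
    have h3 : 0 < 1 - x := by linarith
    have h4 : 1 - x / (x - 1) = (1 - x)⁻¹ := by
      rw [h2]
      field_simp
      ring
    refine ⟨?_, ?_, ?_, ?_⟩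
    · rw [h2, abs_neg, abs_of_pos (by positivity), div_lt_one h3]
      linarith
    · rw [h2, neg_ne_zero]
      positivity
    · rw [h2, Real.log_neg_eq_log, Real.log_div hx.ne' h3.ne']
    · rw [h4, Real.log_inv]
  have hder : ∀ x : ℝ, 0 < x → x < 1 / 2 → HasDerivAt (fun x => L3 (x / (x - 1)) - (-S (L [none, none, some 0]) x +
      S (L [none, some 0, some 0]) x + Real.log x * S (L [none, some 0]) x -
      1 / 6 * Real.log x * Real.log (1 - x) ^ 2 + 1 / 3 * Real.log x ^ 2 * Real.log (1 - x))) 0 x := by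
    intro x hx hx1
    obtain ⟨y1, y2, y3, y4⟩ := hy x hx hx1
    have hax : |x| < 1 := abs_lt.2 ⟨by linarith, by linarith⟩
    have hx1' : 1 - x ≠ 0 := by linarith
    have hx2' : x - 1 ≠ 0 := by linarith
    have e0 : HasDerivAt (fun x : ℝ => x / (x - 1)) ((1 * (x - 1) - x * 1) / (x - 1) ^ 2) x :=
      (hasDerivAt_id x).div ((hasDerivAt_id x).sub_const 1) hx2'
    have e1 : HasDerivAt (fun x => L3 (x / (x - 1))) ((1 / 3 * Real.log (x / (x - 1)) * (Real.log (1 - x / (x - 1)) / (x / (x - 1)) +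
        Real.log (x / (x - 1)) / (1 - x / (x - 1)))) * ((1 * (x - 1) - x * 1) / (x - 1) ^ 2)) x :=
      HasDerivAt.comp (h₂ := L3) (h := fun x : ℝ => x / (x - 1)) x (hdL3 y1 y2) e0
    have e2 := hd0 (w := [none, some 0]) (by unfold adm; simp) hax hx.ne'
    have e3 := hd0 (w := [some 0, some 0]) (by unfold adm; simp) hax hx.ne'
    have e4 := hd0 (w := [some 0]) (by unfold adm; simp) hax hx.ne'
    have e5 := Real.hasDerivAt_log hx.ne'
    have e6 : HasDerivAt (fun x : ℝ => Real.log (1 - x)) (-1 / (1 - x)) x := ((hasDerivAt_id x).const_sub 1).log hx1'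
    have e7 := e1.sub ((((e2.neg.add e3).add (e5.mul e4)).sub ((e5.const_mul (1 / 6)).mul (e6.pow 2))).add
      (((e5.pow 2).const_mul (1 / 3)).mul e6))
    refine e7.congr_deriv ?_
    rw [SL11 hax, SL1 hax, y3, y4]
    have h6 : 1 - x / (x - 1) = -1 / (x - 1) := by
      field_simp
      ring
    rw [h6]
    simp only [Pi.pow_apply]
    obtain ⟨a, ha⟩ : ∃ a, a = Real.log x := ⟨_, rfl⟩
    obtain ⟨b, hb⟩ : ∃ b, b = Real.log (1 - x) := ⟨_, rfl⟩
    rw [← ha, ← hb]
    have hx3 : (1 - x) = -(x - 1) := by ring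
    rw [hx3]
    field_simp
    ring
  have hlim : Tendsto (fun x => L3 (x / (x - 1)) - (-S (L [none, none, some 0]) x +
      S (L [none, some 0, some 0]) x + Real.log x * S (L [none, some 0]) x -
      1 / 6 * Real.log x * Real.log (1 - x) ^ 2 + 1 / 3 * Real.log x ^ 2 * Real.log (1 - x))) (𝓝[>] 0) (𝓝 0) := by
    have hc : ∀ w : List (Option (Fin 1)), w ≠ [] → HasDerivAt (S (L w)) (S (d⁄dX ℚ (L w)) 0) 0 ∧ S (L w) 0 = 0 :=
      fun w hw => ⟨hd (B1w w) (by simp), S0 hw⟩
    have ht : ∀ w : List (Option (Fin 1)), w ≠ [] → Tendsto (S (L w)) (𝓝[>] 0) (𝓝 0) := by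
      intro w hw
      have h := (hc w hw).1.continuousAt.tendsto
      rw [(hc w hw).2] at h
      exact h.mono_left nhdsWithin_le_nhds
    have e0 : HasDerivAt (fun x : ℝ => x / (x - 1)) ((1 * ((0 : ℝ) - 1) - 0 * 1) / ((0 : ℝ) - 1) ^ 2) 0 :=
      (hasDerivAt_id (0 : ℝ)).div ((hasDerivAt_id (0 : ℝ)).sub_const 1) (by norm_num)
    have hz : (0 : ℝ) / (0 - 1) = 0 := by norm_num
    have hcy : ∀ w : List (Option (Fin 1)), w ≠ [] → HasDerivAt (fun x : ℝ => S (L w) (x / (x - 1)))
        (S (d⁄dX ℚ (L w)) 0 * ((1 * ((0 : ℝ) - 1) - 0 * 1) / ((0 : ℝ) - 1) ^ 2)) 0 ∧ S (L w) ((0 : ℝ) / (0 - 1)) = 0 := by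
      intro w hw
      refine ⟨?_, by rw [hz]; exact (hc w hw).2⟩
      have h1 := (hc w hw).1
      rw [← hz] at h1
      have h2 := h1.comp (0 : ℝ) e0
      rw [hz] at h2
      exact h2
    have hty : ∀ w : List (Option (Fin 1)), w ≠ [] → Tendsto (fun x : ℝ => S (L w) (x / (x - 1))) (𝓝[>] 0) (𝓝 0) := by
      intro w hw
      have h := (hcy w hw).1.continuousAt.tendsto
      rw [(hcy w hw).2] at h
      exact h.mono_left nhdsWithin_le_nhds
    have a1 := hty [none, none, some 0] (by simp)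
    have a2 := (lim_log (hcy [none, some 0] (by simp)).1 (hcy [none, some 0] (by simp)).2).1
    have a3 := log1t.mul (hty [none, some 0] (by simp))
    have b1 := (lim_log (hcy [some 0] (by simp)).1 (hcy [some 0] (by simp)).2).2
    have b2 := ((lim_log (hcy [some 0] (by simp)).1 (hcy [some 0] (by simp)).2).1).mul log1t
    have b3 := (log1t.pow 2).mul (hty [some 0] (by simp))
    have c1 := ht [none, none, some 0] (by simp)
    have c2 := ht [none, some 0, some 0] (by simp)
    have c3 := (lim_log (hc [none, some 0] (by simp)).1 (hc [none, some 0] (by simp)).2).1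
    have c4 := (lim_log (f := fun x : ℝ => Real.log (1 - x) ^ 2) (log1.pow 2) (by simp)).1
    have c5 := (lim_log (f := fun x : ℝ => Real.log (1 - x)) log1 (by simp)).2
    have t := (((a1.sub a2).add a3).add (((b1.sub (b2.const_mul 2)).add b3).const_mul (1 / 3))).sub
      ((((c1.neg.add c2).add c3).sub (c4.const_mul (1 / 6))).add (c5.const_mul (1 / 3)))
    simp only [mul_zero, sub_zero, add_zero, neg_zero] at t
    norm_num at t
    refine t.congr' ?_
    have h4 : ∀ᶠ y in 𝓝[>] (0 : ℝ), y < 1 / 2 := (eventually_lt_nhds (by norm_num)).filter_mono nhdsWithin_le_nhds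
    filter_upwards [h4, self_mem_nhdsWithin] with u hu hu0
    have hu0' : (0 : ℝ) < u := hu0
    obtain ⟨y1, y2, y3, y4⟩ := hy u hu0' hu
    unfold L3
    rw [Li1_eq y1, Li2_eq y1, Li3_eq y1, y3]
    ring
  have h := const_lim hder hlim hx hx1
  linarith

/-- the numbers of the point `x` -/
theorem vals {x : ℝ} (hx : 0 < x) (hx1 : x < 1 / 2) :
    L3 (1 - x) = Li 3 1 - (S (L [none, some 0, some 0]) x - 1 / 6 * Real.log x * Real.log (1 - x) ^ 2) ∧
    L3 x + L3 (1 - x) + L3 (x / (x - 1)) = Li 3 1 := by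
  have hax : |x| < 1 := abs_lt.2 ⟨by linarith, by linarith⟩
  have h1 := valE hx (by linarith : x < 1)
  have h2 := valG hx hx1
  have h3 := L3_eq hax
  refine ⟨by linarith, ?_⟩
  rw [h1, h2, h3]
  ring

end Pool.Agent.Q189.Z3
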