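import Pool.Agent.Q189.Z3.Alg
import Pool.Agent.Q189.Z3.Tri
import Pool.Agent.Q189.HL.Fin2

/-!
# The monomials in the two numbers as linear combinations of words
-/

set_option autoImplicit false

open PowerSeries

namespace Pool.Agent.Q189.Z3

open Pool.Agent.Y119.ML (LL UU In geo adm adm_tail adm_none const_LL theta_LL theta_In const_In WI S)
open Pool.Agent.Y120.GH (cx Cw ou)
open Pool.Agent.Q189.HL (Kr one_le_Kr Cw_LL cx_smul)
open Pool.Agent.Y916.Al (evc)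

/-- the convergent series -/
noncomputable def Sq : Subring ℚ⟦X⟧ := (Cw (Kr α1)).comap cx

lemma Kr1 : Kr α1 = 2 := by
  unfold Kr
  simp
  norm_num

lemma Sq_L (w : List (Option (Fin 1))) : L w ∈ Sq := Cw_LL α1 w

lemma Sq_smul (c : ℚ) {f : ℚ⟦X⟧} (hf : f ∈ Sq) : c • f ∈ Sq := by
  show cx (c • f) ∈ Cw (Kr α1)
  rw [cx_smul]
  exact Subring.mul_mem _ (Pool.Agent.Y120.GH.C_mem _) hf

/-- evaluation at `1 / t` -/
noncomputable def evs {t : ℝ} (ht : 2 < t) : Sq →+* ℂ where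
  toFun f := ou (cx f.1) (t : ℂ)
  map_one' := by
    show ou (cx (1 : ℚ⟦X⟧)) _ = 1
    rw [map_one, Pool.Agent.Y120.GH.ou_one]
  map_mul' := fun f g => by
    show ou (cx (f.1 * g.1)) _ = _
    rw [map_mul]
    exact Pool.Agent.Y120.GH.ou_mul (by rw [Kr1]; norm_num) f.2 g.2 (by
      rw [Kr1, Complex.norm_real, Real.norm_eq_abs, abs_of_pos (by linarith)]; exact ht)
  map_zero' := by
    show ou (cx (0 : ℚ⟦X⟧)) _ = 0
    rw [map_zero, Pool.Agent.Y120.GH.ou_zero]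
  map_add' := fun f g => by
    show ou (cx (f.1 + g.1)) _ = _
    rw [map_add]
    exact Pool.Agent.Y120.GH.ou_add (by rw [Kr1]; norm_num) f.2 g.2 (by
      rw [Kr1, Complex.norm_real, Real.norm_eq_abs, abs_of_pos (by linarith)]; exact ht)

lemma evs_apply {t : ℝ} (ht : 2 < t) (f : Sq) : evs ht f = ((S f.1 (1 / t) : ℝ) : ℂ) := by
  show ou (cx f.1) (t : ℂ) = _
  rw [Pool.Agent.Y120.GH.ou_ev]
  rfl

lemma evs_evc {t : ℝ} (ht : 2 < t) (f : Sq) : evs ht f = evc (1 / (t : ℂ)) f.1 := by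
  show ou (cx f.1) (t : ℂ) = _
  rw [Pool.Agent.Q189.HL.evc_eq]

lemma PA_Sq (e : ℕ) : PA.coeff e ∈ Sq := by
  unfold PA
  rw [Polynomial.coeff_add, Polynomial.coeff_add]
  refine Subring.add_mem _ (Subring.add_mem _ ?_ ?_) ?_
  · rw [Polynomial.coeff_C]
    split_ifs
    · exact Sq_L _
    · exact Subring.zero_mem _
  · rcases e with _ | e
    · rw [Polynomial.coeff_X_mul_zero]
      exact Subring.zero_mem _
    · rw [Polynomial.coeff_X_mul, Polynomial.coeff_C]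
      split_ifs
      · exact Sq_L _
      · exact Subring.zero_mem _
  · rcases e with _ | e
    · rw [Polynomial.coeff_X_mul_zero]
      exact Subring.zero_mem _
    · rw [Polynomial.coeff_X_mul]
      rcases e with _ | e
      · rw [Polynomial.coeff_X_mul_zero]
        exact Subring.zero_mem _
      · rw [Polynomial.coeff_X_mul, Polynomial.coeff_C]
        split_ifs
        · exact Sq_smul _ (Sq_L _)
        · exact Subring.zero_mem _

/-- the first number as a polynomial over the convergent series -/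
noncomputable def PA' : Polynomial Sq := Polynomial.C ⟨L [none, none, some 0], Sq_L _⟩ +
  Polynomial.X * Polynomial.C ⟨L [none, some 0], Sq_L _⟩ +
  Polynomial.X * (Polynomial.X * Polynomial.C ⟨(1 / 3 : ℚ) • L [some 0], Sq_smul _ (Sq_L _)⟩)

/-- the second number as a polynomial over the convergent series -/
noncomputable def PC' : Polynomial Sq := Polynomial.C ⟨L [none, some 0, some 0], Sq_L _⟩ +
  Polynomial.X * Polynomial.C ⟨(1 / 3 : ℚ) • L [some 0, some 0], Sq_smul _ (Sq_L _)⟩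

lemma PA'_map : PA'.map Sq.subtype = PA := by
  unfold PA' PA
  simp only [Polynomial.map_add, Polynomial.map_mul, Polynomial.map_X, Polynomial.map_C]
  rfl

lemma PC'_map : PC'.map Sq.subtype = PC := by
  unfold PC' PC
  simp only [Polynomial.map_add, Polynomial.map_mul, Polynomial.map_X, Polynomial.map_C]
  rfl

lemma S_smul (c : ℚ) (f : ℚ⟦X⟧) (x : ℝ) : S (c • f) x = c * S f x := by
  unfold S
  rw [← tsum_mul_left]
  refine tsum_congr fun m => ?_
  rw [map_smul, smul_eq_mul]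
  push_cast
  ring

lemma xt {t : ℝ} (ht : 2 < t) : 0 < 1 / t ∧ 1 / t < 1 / 2 ∧ |1 / t| < 1 ∧ Real.log (1 / t) = -Real.log t := by
  have h0 : 0 < t := by linarith
  have h1 : 0 < 1 / t := by positivity
  have h2 : 1 / t < 1 / 2 := by
    rw [div_lt_div_iff₀ h0 (by norm_num)]
    linarith
  refine ⟨h1, h2, ?_, ?_⟩
  · rw [abs_of_pos h1]
    linarith
  · rw [one_div, Real.log_inv]

/-- the value of the first polynomial -/
theorem PA'_val {t : ℝ} (ht : 2 < t) : Polynomial.eval₂ (evs ht) ((Real.log t : ℝ) : ℂ) PA' = ((L3 (1 / t) : ℝ) : ℂ) := by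
  obtain ⟨h1, h2, h3, h4⟩ := xt ht
  unfold PA'
  rw [Polynomial.eval₂_add, Polynomial.eval₂_add, Polynomial.eval₂_X_mul, Polynomial.eval₂_X_mul, Polynomial.eval₂_X_mul,
    Polynomial.eval₂_C, Polynomial.eval₂_C, Polynomial.eval₂_C, evs_apply, evs_apply, evs_apply, L3_eq h3, h4, S_smul, SL1 h3]
  push_cast
  ring

/-- the value of the second polynomial -/
theorem PC'_val {t : ℝ} (ht : 2 < t) : Polynomial.eval₂ (evs ht) ((Real.log t : ℝ) : ℂ) PC' =
    ((Li 3 1 - L3 (1 - 1 / t) : ℝ) : ℂ) := by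
  obtain ⟨h1, h2, h3, h4⟩ := xt ht
  unfold PC'
  rw [Polynomial.eval₂_add, Polynomial.eval₂_X_mul, Polynomial.eval₂_C, Polynomial.eval₂_C, evs_apply, evs_apply,
    (vals h1 h2).1, h4, S_smul, SL11 h3]
  push_cast
  ring

section
variable (d : ℕ)

/-- the monomials -/
noncomputable def FM (s : Fin 2 → Fin (d + 1)) : Polynomial ℚ⟦X⟧ := PA ^ (s 0 : ℕ) * PC ^ (s 1 : ℕ)

/-- the monomials -/
noncomputable def FM' (s : Fin 2 → Fin (d + 1)) : Polynomial Sq := PA' ^ (s 0 : ℕ) * PC' ^ (s 1 : ℕ)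

lemma FM'_map (s : Fin 2 → Fin (d + 1)) : (FM' d s).map Sq.subtype = FM d s := by
  unfold FM' FM
  rw [Polynomial.map_mul, Polynomial.map_pow, Polynomial.map_pow, PA'_map, PC'_map]

lemma FM_PW (s : Fin 2 → Fin (d + 1)) : PW (6 * d) (FM d s) := by
  have h0 := (s 0).2
  have h1 := (s 1).2
  exact PW_mono (by omega) (PW_mul (PW_pow PA_PW (s 0 : ℕ)) (PW_pow PC_PW (s 1 : ℕ)))

lemma FM_deg (s : Fin 2 → Fin (d + 1)) : (FM d s).natDegree < 6 * d + 1 := by
  have h0 := (s 0).2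
  have h1 := (s 1).2
  have h2 : (PA ^ (s 0 : ℕ)).natDegree ≤ (s 0 : ℕ) * 2 := Polynomial.natDegree_pow_le_of_le _ PA_deg
  have h3 : (PC ^ (s 1 : ℕ)).natDegree ≤ (s 1 : ℕ) * 2 := Polynomial.natDegree_pow_le_of_le _ PC_deg
  have h4 := Polynomial.natDegree_mul_le (p := PA ^ (s 0 : ℕ)) (q := PC ^ (s 1 : ℕ))
  show (PA ^ (s 0 : ℕ) * PC ^ (s 1 : ℕ)).natDegree < _
  omega

/-- expansions -/
lemma exp_VW {W : ℕ} {f : ℚ⟦X⟧} (hf : f ∈ VW W) : ∃ c : WI 1 W → ℚ, ∑ w, c w • L w.1 = f := by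
  have h1 : VW W = Submodule.span ℚ (Set.range fun w : WI 1 W => L w.1) := by
    unfold VW
    congr 1
    ext f
    constructor
    · rintro ⟨w, h1, h2, rfl⟩
      exact ⟨⟨w, h2, h1⟩, rfl⟩
    · rintro ⟨w, rfl⟩
      exact ⟨w.1, w.2.2, w.2.1, rfl⟩
  rw [h1] at hf
  exact (Submodule.mem_span_range_iff_exists_fun ℚ).1 hf

/-- the coefficients -/
theorem exists_κ : ∃ κ : (Fin 2 → Fin (d + 1)) → Fin (6 * d + 1) × WI 1 (6 * d) → ℚ, ∀ s e,
    ∑ w, κ s (e, w) • L w.1 = (FM d s).coeff (e : ℕ) := by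
  have h := fun (s : Fin 2 → Fin (d + 1)) (e : Fin (6 * d + 1)) => exp_VW (FM_PW d s (e : ℕ))
  choose c hc using h
  exact ⟨fun s p => c s p.1 p.2, fun s e => hc s e⟩

/-- the constant coefficients are linearly independent -/
theorem FM0_indep (c : (Fin 2 → Fin (d + 1)) → ℚ) (h : ∑ s, c s • (FM d s).coeff 0 = 0) : c = 0 := by
  classical
  have h1 : ∀ s : Fin 2 → Fin (d + 1), (FM d s).coeff 0 = ((fg 0 ^ (s 0 : ℕ) * fg 1 ^ (s 1 : ℕ) : Pool.Agent.Q189.HL.Sa α1) : ℚ⟦X⟧) := by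
    intro s
    show (PA ^ (s 0 : ℕ) * PC ^ (s 1 : ℕ)).coeff 0 = _
    rw [Polynomial.coeff_zero_eq_eval_zero, Polynomial.eval_mul, Polynomial.eval_pow, Polynomial.eval_pow,
      ← Polynomial.coeff_zero_eq_eval_zero, ← Polynomial.coeff_zero_eq_eval_zero, PA0, PC0]
    have e0 : ((fg 0 : Pool.Agent.Q189.HL.Sa α1) : ℚ⟦X⟧) = L [none, none, some 0] :=
      Pool.Agent.Q189.HL.coe_Lx α1_inj α1_ne (by unfold adm; simp)
    have e1 : ((fg 1 : Pool.Agent.Q189.HL.Sa α1) : ℚ⟦X⟧) = L [none, some 0, some 0] :=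
      Pool.Agent.Q189.HL.coe_Lx α1_inj α1_ne (by unfold adm; simp)
    rw [Subalgebra.coe_mul, Subalgebra.coe_pow, Subalgebra.coe_pow, e0, e1]
  set R : MvPolynomial (Fin 2) ℚ := ∑ s, MvPolynomial.monomial (Pool.Agent.Q246.NR2.tB s) (c s) with hR
  have h2 : MvPolynomial.aeval fg R = 0 := by
    refine Subtype.ext ?_
    rw [hR, map_sum, Subalgebra.coe_zero, ← h, AddSubmonoidClass.coe_finsetSum]
    refine Finset.sum_congr rfl fun s _ => ?_
    rw [MvPolynomial.aeval_monomial, h1, Subalgebra.coe_mul, Subalgebra.coe_mul, IsScalarTower.algebraMap_apply ℚ (Polynomial ℚ)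
      (Pool.Agent.Q189.HL.Sa α1)]
    have h4 : ((algebraMap (Polynomial ℚ) (Pool.Agent.Q189.HL.Sa α1) (algebraMap ℚ (Polynomial ℚ) (c s)) :
        Pool.Agent.Q189.HL.Sa α1) : ℚ⟦X⟧) = algebraMap ℚ ℚ⟦X⟧ (c s) := by
      rw [IsScalarTower.algebraMap_apply ℚ (Polynomial ℚ) ℚ⟦X⟧]
      rfl
    rw [h4, Algebra.smul_def, ← Subalgebra.coe_mul]
    congr 2
    rw [Finsupp.prod_fintype _ _ (fun _ => pow_zero _), Fin.prod_univ_two]
    rfl
  have h3 := fg_indep R.totalDegree R (fun m hm => by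
    by_contra hne
    have := MvPolynomial.le_totalDegree (MvPolynomial.mem_support_iff.2 hne)
    rw [Finsupp.degree_eq_sum] at hm
    rw [Finsupp.sum_fintype _ _ (fun _ => rfl)] at this
    omega) h2
  funext s
  have h4 := congrArg (MvPolynomial.coeff (Pool.Agent.Q246.NR2.tB s)) h3
  rw [hR, MvPolynomial.coeff_sum, MvPolynomial.coeff_zero, Finset.sum_eq_single_of_mem s (Finset.mem_univ _)] at h4
  · rw [MvPolynomial.coeff_monomial, if_pos rfl] at h4
    exact h4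
  · intro s' _ hs'
    rw [MvPolynomial.coeff_monomial, if_neg (fun h5 => hs' (Pool.Agent.Q246.NR2.tB_inj h5))]

/-- the left inverse -/
theorem exists_lam {κ : (Fin 2 → Fin (d + 1)) → Fin (6 * d + 1) × WI 1 (6 * d) → ℚ}
    (hκ : ∀ s e, ∑ w, κ s (e, w) • L w.1 = (FM d s).coeff (e : ℕ)) :
    ∃ lam : (Fin 2 → Fin (d + 1)) → Fin (6 * d + 1) × WI 1 (6 * d) → ℚ, ∀ s s', ∑ b, lam s b * κ s' b = if s = s' then 1 else 0 := by
  classical
  let v : (Fin 2 → Fin (d + 1)) → (WI 1 (6 * d) → ℚ) := fun s w => κ s (0, w)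
  let Φ : ((Fin 2 → Fin (d + 1)) → ℚ) →ₗ[ℚ] (WI 1 (6 * d) → ℚ) := Fintype.linearCombination ℚ v
  have hinj : LinearMap.ker Φ = ⊥ := by
    rw [LinearMap.ker_eq_bot']
    intro c hc
    apply FM0_indep d c
    have h1 : ∀ s, (FM d s).coeff 0 = ∑ w, κ s (0, w) • L w.1 := fun s => (hκ s 0).symm
    simp only [h1, Finset.smul_sum, smul_smul]
    rw [Finset.sum_comm]
    refine Finset.sum_eq_zero fun w _ => ?_
    rw [← Finset.sum_smul]
    have h2 := congrFun hc w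
    rw [Fintype.linearCombination_apply, Finset.sum_apply] at h2
    have h3 : ∑ s, c s * κ s (0, w) = 0 := h2
    rw [h3, zero_smul]
  obtain ⟨Ψ, hΨ⟩ := LinearMap.exists_leftInverse_of_injective Φ hinj
  refine ⟨fun s b => if b.1 = 0 then Ψ (Pi.single b.2 1) s else 0, fun s s' => ?_⟩
  rw [Fintype.sum_prod_type]
  rw [Finset.sum_eq_single_of_mem (0 : Fin (6 * d + 1)) (Finset.mem_univ _)]
  · simp only [if_true]
    have h1 : Ψ (v s') = Pi.single s' 1 := by
      have h2 : Φ (Pi.single s' 1) = v s' := by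
        rw [Fintype.linearCombination_apply_single, one_smul]
      rw [← h2]
      exact congrFun (congrArg DFunLike.coe hΨ) _
    have h3 : v s' = ∑ w, κ s' (0, w) • (Pi.single w 1 : WI 1 (6 * d) → ℚ) := by
      funext w'
      rw [Finset.sum_apply, Finset.sum_eq_single_of_mem w' (Finset.mem_univ _)]
      · simp [v]
      · intro w _ hw
        rw [Pi.smul_apply, Pi.single_eq_of_ne (fun h => hw h.symm), smul_zero]
    have h4 := congrFun h1 s
    rw [h3, map_sum, Finset.sum_apply] at h4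
    simp only [map_smul, Pi.smul_apply, smul_eq_mul] at h4
    rw [Pi.single_apply] at h4
    rw [← h4]
    exact Finset.sum_congr rfl fun w _ => mul_comm _ _
  · intro e _ he
    refine Finset.sum_eq_zero fun w _ => ?_
    show (if e = 0 then Ψ (Pi.single w 1) s else 0) * κ s' (e, w) = 0
    rw [if_neg he, zero_mul]

/-- the values of the monomials -/
theorem FM_val {κ : (Fin 2 → Fin (d + 1)) → Fin (6 * d + 1) × WI 1 (6 * d) → ℚ}
    (hκ : ∀ s e, ∑ w, κ s (e, w) • L w.1 = (FM d s).coeff (e : ℕ)) {t : ℝ} (ht : 2 < t) (s : Fin 2 → Fin (d + 1)) :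
    ∑ b, (κ s b : ℂ) * (((Real.log t : ℝ) : ℂ) ^ (b.1 : ℕ) * evc (1 / (t : ℂ)) (LL α1 0 b.2.1)) =
      ((L3 (1 / t) : ℝ) : ℂ) ^ (s 0 : ℕ) * ((Li 3 1 - L3 (1 - 1 / t) : ℝ) : ℂ) ^ (s 1 : ℕ) := by
  have h1 : Polynomial.eval₂ (evs ht) ((Real.log t : ℝ) : ℂ) (FM' d s) =
      ((L3 (1 / t) : ℝ) : ℂ) ^ (s 0 : ℕ) * ((Li 3 1 - L3 (1 - 1 / t) : ℝ) : ℂ) ^ (s 1 : ℕ) := by
    unfold FM'
    rw [Polynomial.eval₂_mul, Polynomial.eval₂_pow, Polynomial.eval₂_pow, PA'_val, PC'_val]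
  have hdeg : (FM' d s).natDegree < 6 * d + 1 := by
    have h2 := FM_deg d s
    rw [← FM'_map, Polynomial.natDegree_map_eq_of_injective Subtype.val_injective] at h2
    exact h2
  rw [← h1, Polynomial.eval₂_eq_sum_range' _ hdeg, Fintype.sum_prod_type, Finset.sum_range]
  refine Finset.sum_congr rfl fun e _ => ?_
  have h2 : evs ht ((FM' d s).coeff (e : ℕ)) = ∑ w, (κ s (e, w) : ℂ) * evc (1 / (t : ℂ)) (LL α1 0 w.1) := by
    have h3 : (FM' d s).coeff (e : ℕ) = ∑ w, (⟨κ s (e, w) • L w.1, Sq_smul _ (Sq_L _)⟩ : Sq) := by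
      refine Subtype.ext ?_
      rw [AddSubmonoidClass.coe_finsetSum]
      show _ = ∑ w, κ s (e, w) • L w.1
      rw [hκ, ← FM'_map, Polynomial.coeff_map]
      rfl
    rw [h3, map_sum]
    refine Finset.sum_congr rfl fun w _ => ?_
    rw [evs_apply]
    show ((S (κ s (e, w) • L w.1) (1 / t) : ℝ) : ℂ) = _
    rw [S_smul]
    push_cast
    congr 1
    have h4 := evs_apply ht ⟨L w.1, Sq_L _⟩
    rw [evs_evc] at h4
    exact h4.symm
  rw [h2, Finset.sum_mul]
  refine Finset.sum_congr rfl fun w _ => ?_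
  ring

end

end Pool.Agent.Q189.Z3
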