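import Pool.Agent.Q189.Z3.Tz

/-!
# The theorem for almost all tuples
-/

set_option autoImplicit false

open PowerSeries

namespace Pool.Agent.Q189.Z3

open Pool.Agent.Y119.ML (LL WI)
open Pool.Agent.Q189.HL (JX GdL nn hl fam_hl size_hl conn_hl hgd)
open Pool.Agent.Y916.Al (evc)
open Pool.Agent.Y916.Sl Pool.Agent.Q189.MF Pool.Agent.Q246.NR Pool.Agent.Q246.NR2 Pool.Agent.Q246.LN
open Pool.Agent.Q189.JM (len_aeval deg_aeval aint_norm)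

variable {k g : ℕ}

/-- the numbers `𝓛(1/t)` and `𝓛(1 - 1/t)` -/
noncomputable def n2 (t : Fin k → ℝ) : Fin k × Fin 2 → ℂ :=
  fun v => (![((L3 (1 / t v.1) : ℝ) : ℂ), ((L3 (1 - 1 / t v.1) : ℝ) : ℂ)] : Fin 2 → ℂ) v.2

/-- the constants -/
noncomputable def cz (ζ : Fin g → ℂ) : Fin (g + 1) → ℂ := Fin.cons ((Li 3 1 : ℝ) : ℂ) ζ

/-- the transfer -/
def FZ (d B : ℕ) (ζ : Fin g → ℂ) (t : Fin k → ℝ) (H : ℝ) : Prop :=
  ∀ P : MvPolynomial ((Fin k × Fin 2) ⊕ Fin (g + 1)) ℤ, P.totalDegree ≤ d → (∀ e, |((P.coeff e : ℤ) : ℝ)| ≤ H) →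
    ∀ w : Fin k × Fin 2 → ℂ, ‖MvPolynomial.aeval (Sum.elim w (cz ζ)) P‖ ≤
      (H * max 1 ‖w‖) ^ B * ‖MvPolynomial.aeval (Sum.elim (n2 t) (cz ζ)) P‖

lemma FZ.mono {d B : ℕ} {ζ : Fin g → ℂ} {t : Fin k → ℝ} {H H' : ℝ} (h1 : 1 ≤ H) (h2 : H ≤ H') (h3 : H' ≤ H ^ 2)
    (hg : FZ d B ζ t H') : FZ d (2 * B) ζ t H := by
  intro P hd hH w
  refine (hg P hd (fun e => (hH e).trans h2) w).trans ?_
  refine mul_le_mul_of_nonneg_right ?_ (norm_nonneg _)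
  rw [pow_mul]
  have h4 : 1 ≤ max 1 ‖w‖ := le_max_left _ _
  refine pow_le_pow_left₀ (mul_nonneg (by linarith) (by positivity)) ?_ _
  calc H' * max 1 ‖w‖ ≤ H ^ 2 * max 1 ‖w‖ := mul_le_mul_of_nonneg_right h3 (by positivity)
    _ ≤ H ^ 2 * max 1 ‖w‖ ^ 2 := mul_le_mul_of_nonneg_left (le_self_pow₀ h4 (by norm_num)) (by positivity)
    _ = _ := by ring

/-- the substitution -/
noncomputable def Ss (k g : ℕ) : (Fin k × Fin 2) ⊕ Fin (g + 1) → MvPolynomial ((Fin k × Fin 2) ⊕ Fin (g + 1)) ℤ :=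
  Sum.elim (fun v => (![MvPolynomial.X (Sum.inl (v.1, 0)), MvPolynomial.X (Sum.inr 0) - MvPolynomial.X (Sum.inl (v.1, 1))] :
    Fin 2 → MvPolynomial ((Fin k × Fin 2) ⊕ Fin (g + 1)) ℤ) v.2) fun i => MvPolynomial.X (Sum.inr i)

lemma Ss_deg (v : (Fin k × Fin 2) ⊕ Fin (g + 1)) : (Ss k g v).totalDegree ≤ 1 := by
  rcases v with ⟨j, i⟩ | i
  · fin_cases i
    · exact Pool.Agent.Q189.JM.dX' _
    · exact (MvPolynomial.totalDegree_sub _ _).trans (max_le (Pool.Agent.Q189.JM.dX' _) (Pool.Agent.Q189.JM.dX' _))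
  · exact Pool.Agent.Q189.JM.dX' _

lemma Ss_len (v : (Fin k × Fin 2) ⊕ Fin (g + 1)) : len (Ss k g v) ≤ 2 := by
  rcases v with ⟨j, i⟩ | i
  · fin_cases i
    · show len (MvPolynomial.X (Sum.inl (j, 0)) : MvPolynomial ((Fin k × Fin 2) ⊕ Fin (g + 1)) ℤ) ≤ 2
      rw [len_X]
      norm_num
    · refine (len_sub _ _).trans ?_
      rw [len_X, len_X]
      norm_num
  · show len (MvPolynomial.X (Sum.inr i) : MvPolynomial ((Fin k × Fin 2) ⊕ Fin (g + 1)) ℤ) ≤ 2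
    rw [len_X]
    norm_num

/-- the other coordinates -/
noncomputable def oc (θ : ℂ) (y : Fin k × Fin 2 → ℂ) : Fin k × Fin 2 → ℂ :=
  fun v => (![y (v.1, 0), θ - y (v.1, 1)] : Fin 2 → ℂ) v.2

lemma oc_oc (θ : ℂ) (y : Fin k × Fin 2 → ℂ) : oc θ (oc θ y) = y := by
  funext v
  obtain ⟨j, i⟩ := v
  fin_cases i
  · rfl
  · show θ - (θ - y (j, 1)) = y (j, 1)
    ring

lemma Ss_eval (ζ' : Fin (g + 1) → ℂ) (y : Fin k × Fin 2 → ℂ) (P : MvPolynomial ((Fin k × Fin 2) ⊕ Fin (g + 1)) ℤ) :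
    MvPolynomial.aeval (Sum.elim y ζ') (MvPolynomial.aeval (Ss k g) P) = MvPolynomial.aeval (Sum.elim (oc (ζ' 0) y) ζ') P := by
  have h1 : (fun v => MvPolynomial.aeval (Sum.elim y ζ') (Ss k g v)) = Sum.elim (oc (ζ' 0) y) ζ' := by
    funext v
    rcases v with ⟨j, i⟩ | i
    · fin_cases i
      · show MvPolynomial.aeval (Sum.elim y ζ') (MvPolynomial.X (Sum.inl (j, 0))) = _
        rw [MvPolynomial.aeval_X]
        rfl
      · show MvPolynomial.aeval (Sum.elim y ζ') (MvPolynomial.X (Sum.inr 0) - MvPolynomial.X (Sum.inl (j, 1))) = _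
        rw [map_sub, MvPolynomial.aeval_X, MvPolynomial.aeval_X]
        rfl
    · show MvPolynomial.aeval (Sum.elim y ζ') (MvPolynomial.X (Sum.inr i)) = _
      rw [MvPolynomial.aeval_X]
      rfl
  rw [← h1]
  exact MvPolynomial.comp_aeval_apply (Ss k g) (MvPolynomial.aeval (Sum.elim y ζ')) P

theorem fz_of (k g d B : ℕ) : ∃ (B' : ℕ) (H₀ : ℝ), ∀ (ζ : Fin g → ℂ) (t : Fin k → ℝ) (H : ℝ), H₀ ≤ H →
    TZ d B (cz ζ) t (H ^ 2) → FZ d B' ζ t H := by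
  classical
  set V : ℕ := Fintype.card ((Fin k × Fin 2) ⊕ Fin (g + 1)) with hV
  set A : ℝ := ((d : ℝ) + 1) ^ V * ((2 : ℝ) ^ d) ^ V with hA
  set θ : ℂ := ((Li 3 1 : ℝ) : ℂ) with hθ
  refine ⟨3 * B, max (max 1 A) (‖θ‖ + 1), fun ζ t H hH htz => ?_⟩
  have hH1 : 1 ≤ H := (le_max_left _ _).trans ((le_max_left _ _).trans hH)
  have hHA : A ≤ H := (le_max_right _ _).trans ((le_max_left _ _).trans hH)
  have hHθ : ‖θ‖ + 1 ≤ H := (le_max_right _ _).trans hH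
  have hH0 : 0 < H := by linarith
  intro P hPd hPH w
  have h0 : cz ζ 0 = θ := rfl
  have h1 := htz (MvPolynomial.aeval (Ss k g) P) (deg_aeval (Ss k g) Ss_deg P hPd) (fun e => by
    refine (abs_coeff_le_len _ _).trans ((len_aeval (Ss k g) 2 (by norm_num) Ss_len P hPd H hPH).trans ?_)
    calc _ = A * H := by rw [hA, hV]; ring
      _ ≤ H * H := mul_le_mul_of_nonneg_right hHA hH0.le
      _ = _ := by ring) (oc θ w)
  rw [Ss_eval, Ss_eval, h0, oc_oc] at h1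
  have h2 : oc θ (v2 t) = n2 t := by
    funext v
    obtain ⟨j, i⟩ := v
    fin_cases i
    · rfl
    · show θ - ((Li 3 1 - L3 (1 - 1 / t j) : ℝ) : ℂ) = ((L3 (1 - 1 / t j) : ℝ) : ℂ)
      rw [hθ]
      push_cast
      ring
  rw [h2] at h1
  refine h1.trans (mul_le_mul_of_nonneg_right ?_ (norm_nonneg _))
  have hX1 : 1 ≤ max 1 ‖w‖ := le_max_left _ _
  have h3 : max 1 ‖oc θ w‖ ≤ H * max 1 ‖w‖ := by
    refine max_le (by nlinarith) ((pi_norm_le_iff_of_nonneg (by positivity)).2 ?_)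
    rintro ⟨j, i⟩
    fin_cases i
    · show ‖w (j, 0)‖ ≤ _
      have := (norm_le_pi_norm w (j, 0)).trans (le_max_right 1 ‖w‖)
      nlinarith
    · show ‖θ - w (j, 1)‖ ≤ _
      have h4 := (norm_le_pi_norm w (j, 1)).trans (le_max_right 1 ‖w‖)
      refine (norm_sub_le _ _).trans ?_
      nlinarith [norm_nonneg θ]
  calc (H ^ 2 * max 1 ‖oc θ w‖) ^ B ≤ (H ^ 2 * (H * max 1 ‖w‖)) ^ B :=
        pow_le_pow_left₀ (by positivity) (mul_le_mul_of_nonneg_left h3 (by positivity)) _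
    _ ≤ ((H * max 1 ‖w‖) ^ 3) ^ B := by
        refine pow_le_pow_left₀ (by positivity) ?_ _
        calc H ^ 2 * (H * max 1 ‖w‖) = H ^ 3 * max 1 ‖w‖ := by ring
          _ ≤ H ^ 3 * max 1 ‖w‖ ^ 3 := mul_le_mul_of_nonneg_left (le_self_pow₀ hX1 (by norm_num)) (by positivity)
          _ = _ := by ring
    _ = _ := by rw [← pow_mul]

/-- the property of a tuple -/
def GZ (d B : ℕ) (ζ : Fin g → ℂ) (x : Fin k → ℂ) (H : ℝ) : Prop :=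
  ∀ t : Fin k → ℝ, (∀ j, 2 < t j ∧ ((t j : ℝ) : ℂ) = x j) → FZ d B ζ t H

theorem main (k g d m : ℕ) (hm : 1 ≤ m) : ∃ (B : ℕ) (C c : ℝ), 0 < c ∧ ∀ T : ℕ, 1 ≤ T →
    (∃ H₀ : ℝ, ∀ H₁ : ℝ, H₀ ≤ H₁ → ∀ ζ : Fin g → ℂ,
      (({x : Fin k → ℂ | (∀ j, SInt m T (x j)) ∧ ¬ ∀ H : ℝ, H₁ ≤ H → H ≤ H₁ ^ Real.exp ((T : ℝ) ^ c) →
        GZ d B ζ x H}.ncard : ℕ) : ℝ) ≤ C * (T : ℝ) ^ (-c) * (({ξ : ℂ | SInt m T ξ}.ncard : ℕ) : ℝ) ^ k) ∧
    ∀ ζ : Fin g → ℂ, (({x : Fin k → ℂ | (∀ j, SInt m T (x j)) ∧ ¬ ∀ N₀ : ℕ, ∃ N, N₀ ≤ N ∧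
      (({j : ℕ | j < N ∧ ¬ ∀ H : ℝ, 2 ^ (2 ^ j) ≤ H → H ≤ 2 ^ (2 ^ (j + 1)) → GZ d B ζ x H}.ncard : ℕ) : ℝ) ≤
          (T : ℝ) ^ (-c) * N}.ncard : ℕ) : ℝ) ≤ C * (T : ℝ) ^ (-c) * (({ξ : ℂ | SInt m T ξ}.ncard : ℕ) : ℝ) ^ k := by
  classical
  obtain ⟨K, hK, hs⟩ := size_hl α1 (6 * d)
  refine torD (r := fun _ : Fin k => nn 1 (6 * d) * nn 1 (6 * d)) (h := fun _ => hl α1 (6 * d)) (fun _ => fam_hl α1 (6 * d))
    (fun _ => ⟨K, hs⟩) (fun _ => conn_hl α1 α1_inj α1_ne (6 * d)) (g + 1) m ((g + 1) * d + k * (6 * d + 1)) 8 0 hm (by norm_num)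
    (fun ζ : Fin g → ℂ => cz ζ) (fun B ζ x H => GZ d B ζ x H) (fun B₀ => ?_) (fun B ζ x H H' h1 h2 h3 hg t ht => (hg t ht).mono h1 h2 h3)
  obtain ⟨B₁, H₁, hB₁⟩ := hgd (k := k) (r := fun _ => 1) (fun _ => α1) (fun _ => α1_inj) (fun _ => α1_ne) (6 * d) (g + 1)
    ((g + 1) * d) B₀
  obtain ⟨B₂, H₂, hB₂⟩ := tz_of k (g + 1) d B₁
  obtain ⟨B₃, H₃, hB₃⟩ := fz_of k g d B₂
  refine ⟨B₃, fun T hT => ⟨max (max H₁ H₂) (max (max H₃ 1) T), fun ζ x H hH hx _ hg t ht => ?_⟩⟩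
  have hHa : H₁ ≤ H := (le_max_left _ _).trans ((le_max_left _ _).trans hH)
  have hHb : H₂ ≤ H := (le_max_right _ _).trans ((le_max_left _ _).trans hH)
  have hHc : H₃ ≤ H := (le_max_left _ _).trans ((le_max_left _ _).trans ((le_max_right _ _).trans hH))
  have hH1 : 1 ≤ H := (le_max_right _ _).trans ((le_max_left _ _).trans ((le_max_right _ _).trans hH))
  have hHT : (T : ℝ) ≤ H := (le_max_right _ _).trans ((le_max_right _ _).trans hH)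
  have h4 : H ≤ H ^ 4 := le_self_pow₀ hH1 (by norm_num)
  have h2 : H ≤ H ^ 2 := le_self_pow₀ hH1 (by norm_num)
  have e8 : H ^ 8 = (H ^ 4) ^ 2 := by ring
  rw [e8] at hg
  have g1 := hB₁ (cz ζ) x (H ^ 4) (hHa.trans h4) hg
  have e4 : H ^ 4 = (H ^ 2) ^ 2 := by ring
  rw [e4] at g1
  have g2 := hB₂ (cz ζ) x (H ^ 2) (hHb.trans h2) g1 t (fun j => ⟨(ht j).1, (ht j).2, by
    have h5 := aint_norm (hx j)
    rw [← (ht j).2, Complex.norm_real, Real.norm_eq_abs] at h5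
    exact (le_abs_self _).trans (h5.trans (hHT.trans h2))⟩)
  exact hB₃ ζ t H hHc g2

end Pool.Agent.Q189.Z3
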