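import Pool.Agent.Q189.Z3.Exp
import Pool.Agent.Q189.HC.Mes
import Pool.Agent.Q189.JM.Fin

/-!
# Near relations between the numbers are near relations everywhere
-/

set_option autoImplicit false

open PowerSeries

namespace Pool.Agent.Q189.Z3

open Pool.Agent.Y119.ML (LL WI)
open Pool.Agent.Q189.HL (JX GdL)
open Pool.Agent.Y916.Al (evc)
open Pool.Agent.Q246.NR Pool.Agent.Q246.NR2
open Pool.Agent.Q189.HC (rat_den)

variable {k g : ℕ}

/-- the numbers `𝓛(1/t)` and `ζ(3) - 𝓛(1 - 1/t)` -/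
noncomputable def v2 (t : Fin k → ℝ) : Fin k × Fin 2 → ℂ :=
  fun v => (![((L3 (1 / t v.1) : ℝ) : ℂ), ((Li 3 1 - L3 (1 - 1 / t v.1) : ℝ) : ℂ)] : Fin 2 → ℂ) v.2

/-- the transfer -/
def TZ (d B : ℕ) (ζ : Fin g → ℂ) (t : Fin k → ℝ) (H : ℝ) : Prop :=
  ∀ P : MvPolynomial ((Fin k × Fin 2) ⊕ Fin g) ℤ, P.totalDegree ≤ d → (∀ e, |((P.coeff e : ℤ) : ℝ)| ≤ H) →
    ∀ w : Fin k × Fin 2 → ℂ, ‖MvPolynomial.aeval (Sum.elim w ζ) P‖ ≤
      (H * max 1 ‖w‖) ^ B * ‖MvPolynomial.aeval (Sum.elim (v2 t) ζ) P‖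

/-- the coefficients with respect to the first variables -/
noncomputable def pe {d : ℕ} (P : MvPolynomial ((Fin k × Fin 2) ⊕ Fin g) ℤ) (e : Fin k × Fin 2 → Fin (d + 1)) :
    MvPolynomial (Fin g ⊕ Fin k) ℤ :=
  ∑ w : Fin g → Fin (d + 1), MvPolynomial.C (P.coeff (tB (Sum.elim e w))) * ∏ i, MvPolynomial.X (Sum.inl i) ^ (w i : ℕ)

lemma pe_eval {d : ℕ} (P : MvPolynomial ((Fin k × Fin 2) ⊕ Fin g) ℤ) (hP : P.totalDegree ≤ d) (ζ : Fin g → ℂ) (x : Fin k → ℂ)
    (y : Fin k × Fin 2 → ℂ) : MvPolynomial.aeval (Sum.elim y ζ) P =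
      ∑ e : Fin k × Fin 2 → Fin (d + 1), MvPolynomial.aeval (Sum.elim ζ x) (pe P e) * ∏ v, y v ^ (e v : ℕ) := by
  rw [eval_two P hP]
  refine Finset.sum_congr rfl fun e _ => ?_
  unfold pe
  rw [map_sum, Finset.sum_mul]
  refine Finset.sum_congr rfl fun w _ => ?_
  rw [map_mul, MvPolynomial.aeval_C, map_prod]
  simp only [map_pow, MvPolynomial.aeval_X, Sum.elim_inl, eq_intCast]
  ring

lemma pe_deg {d : ℕ} (P : MvPolynomial ((Fin k × Fin 2) ⊕ Fin g) ℤ) (e : Fin k × Fin 2 → Fin (d + 1)) :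
    (pe P e).totalDegree ≤ g * d := by
  refine MvPolynomial.totalDegree_finsetSum_le fun w _ => ?_
  refine (MvPolynomial.totalDegree_mul _ _).trans ?_
  rw [MvPolynomial.totalDegree_C, zero_add]
  refine (MvPolynomial.totalDegree_finsetProd _ _).trans ?_
  calc _ ≤ ∑ _i : Fin g, d := by
        refine Finset.sum_le_sum fun i _ => (MvPolynomial.totalDegree_pow _ _).trans ?_
        rw [MvPolynomial.totalDegree_X, mul_one]
        have := (w i).2
        omega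
    _ = _ := by rw [Finset.sum_const, Finset.card_univ, Fintype.card_fin, smul_eq_mul]

lemma pe_len {d : ℕ} (P : MvPolynomial ((Fin k × Fin 2) ⊕ Fin g) ℤ) {H : ℝ} (hH : ∀ e, |((P.coeff e : ℤ) : ℝ)| ≤ H)
    (e : Fin k × Fin 2 → Fin (d + 1)) : len (pe P e) ≤ ((d : ℝ) + 1) ^ g * H := by
  have hH0 : 0 ≤ H := (abs_nonneg _).trans (hH 0)
  refine (len_sum _ _).trans ?_
  calc _ ≤ ∑ _w : Fin g → Fin (d + 1), H := by
        refine Finset.sum_le_sum fun w _ => (len_mul _ _).trans ?_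
        rw [len_C, Int.norm_eq_abs]
        calc _ ≤ H * 1 := by
              refine mul_le_mul (hH _) ((len_prod _ _).trans ?_) (len_nonneg _) hH0
              refine Finset.prod_le_one (fun _ _ => len_nonneg _) fun i _ => (len_pow _ _).trans ?_
              rw [len_X, one_pow]
          _ = H := mul_one _
    _ = _ := by
        rw [Finset.sum_const, Finset.card_univ, nsmul_eq_mul, Fintype.card_pi, Finset.prod_const, Fintype.card_fin,
          Finset.card_univ, Fintype.card_fin]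
        push_cast
        ring

theorem tz_of (k g d B₀ : ℕ) : ∃ (B : ℕ) (H₀ : ℝ), ∀ (ζ : Fin g → ℂ) (x : Fin k → ℂ) (H : ℝ), H₀ ≤ H →
    GdL (r := fun _ : Fin k => 1) (fun _ => α1) (6 * d) (g * d) B₀ ζ x (H ^ 2) →
    ∀ t : Fin k → ℝ, (∀ j, 2 < t j ∧ ((t j : ℝ) : ℂ) = x j ∧ t j ≤ H) → TZ d B ζ t H := by
  classical
  obtain ⟨κ, hκ⟩ := exists_κ d
  obtain ⟨lam, hlam⟩ := exists_lam d hκ
  -- the coefficients
  let sj : (Fin k × Fin 2 → Fin (d + 1)) → Fin k → Fin 2 → Fin (d + 1) := fun e j i => e (j, i)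
  let J : Type := JX (fun _ : Fin k => 1) (6 * d)
  obtain ⟨D, c, hD, hc⟩ := rat_den (fun p : (Fin k × Fin 2 → Fin (d + 1)) × JX (fun _ : Fin k => 1) (6 * d) =>
    ∏ j, κ (sj p.1 j) (p.2 j))
  set M : ℝ := ∑ p, |((c p : ℤ) : ℝ)| with hM
  have hM0 : 0 ≤ M := Finset.sum_nonneg fun _ _ => abs_nonneg _
  set Λ : ℝ := ∑ e : Fin k × Fin 2 → Fin (d + 1), ∑ b : JX (fun _ : Fin k => 1) (6 * d), |((∏ j, lam (sj e j) (b j) : ℚ) : ℝ)| with hΛ
  have hΛ0 : 0 ≤ Λ := Finset.sum_nonneg fun _ _ => Finset.sum_nonneg fun _ _ => abs_nonneg _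
  set G : ℝ := ((d : ℝ) + 1) ^ g with hG
  set N : ℕ := Fintype.card (Fin k × Fin 2) with hN
  refine ⟨2 * B₀ + (N * d + 1), max 1 (max (M * G) Λ), fun ζ x H hH hg t ht => ?_⟩
  have hH1 : 1 ≤ H := (le_max_left _ _).trans hH
  have hHM : M * G ≤ H := (le_max_left _ _).trans ((le_max_right _ _).trans hH)
  have hHΛ : Λ ≤ H := (le_max_right _ _).trans ((le_max_right _ _).trans hH)
  have hH0 : 0 < H := by linarith
  intro P hPd hPH w
  obtain ⟨-, g2⟩ := hg (fun j => ((Real.log (t j) : ℝ) : ℂ)) (fun j => by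
    rw [← (ht j).2.1, ← Complex.ofReal_exp, Real.exp_log (by linarith [(ht j).1])]) (fun j => by
    have h1 : 0 ≤ Real.log (t j) := Real.log_nonneg (by linarith [(ht j).1])
    rw [Complex.norm_real, Real.norm_eq_abs, abs_of_nonneg h1]
    have h2 := Real.log_le_sub_one_of_pos (x := t j) (by linarith [(ht j).1])
    have h3 : H ≤ H ^ 2 := le_self_pow₀ hH1 (by norm_num)
    linarith [(ht j).2.2])
  -- the linear form
  set Pb : JX (fun _ : Fin k => 1) (6 * d) → MvPolynomial (Fin g ⊕ Fin k) ℤ := fun b =>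
    ∑ e : Fin k × Fin 2 → Fin (d + 1), MvPolynomial.C (c (e, b)) * pe P e with hPb
  have hPbd : ∀ b, (Pb b).totalDegree ≤ g * d := by
    intro b
    refine MvPolynomial.totalDegree_finsetSum_le fun e _ => (MvPolynomial.totalDegree_mul _ _).trans ?_
    rw [MvPolynomial.totalDegree_C, zero_add]
    exact pe_deg P e
  have hPbH : ∀ b e', |(((Pb b).coeff e' : ℤ) : ℝ)| ≤ H ^ 2 := by
    intro b e'
    refine (abs_coeff_le_len _ _).trans ((len_sum _ _).trans ?_)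
    calc _ ≤ ∑ e : Fin k × Fin 2 → Fin (d + 1), |((c (e, b) : ℤ) : ℝ)| * (G * H) := by
          refine Finset.sum_le_sum fun e _ => (len_mul _ _).trans ?_
          rw [len_C, Int.norm_eq_abs]
          exact mul_le_mul_of_nonneg_left (pe_len P hPH e) (abs_nonneg _)
      _ = (∑ e : Fin k × Fin 2 → Fin (d + 1), |((c (e, b) : ℤ) : ℝ)|) * (G * H) := by rw [Finset.sum_mul]
      _ ≤ M * (G * H) := by
          refine mul_le_mul_of_nonneg_right ?_ (by positivity)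
          rw [hM, Fintype.sum_prod_type]
          refine Finset.sum_le_sum fun e _ => ?_
          exact Finset.single_le_sum (f := fun b => |((c (e, b) : ℤ) : ℝ)|) (fun _ _ => abs_nonneg _) (Finset.mem_univ b)
      _ = (M * G) * H := by ring
      _ ≤ H * H := mul_le_mul_of_nonneg_right hHM hH0.le
      _ = _ := by ring
  have hcC : ∀ e b, ((c (e, b) : ℤ) : ℂ) = (D : ℂ) * ∏ j, (κ (sj e j) (b j) : ℂ) := by
    intro e b
    have h1 := hc (e, b)
    have h2 : (((c (e, b) : ℤ) : ℚ) : ℂ) = (((D : ℚ) * ∏ j, κ (sj e j) (b j) : ℚ) : ℂ) := by rw [h1]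
    push_cast at h2
    exact h2
  have hPbe : ∀ b, MvPolynomial.aeval (Sum.elim ζ x) (Pb b) =
      ∑ e : Fin k × Fin 2 → Fin (d + 1), ((c (e, b) : ℤ) : ℂ) * MvPolynomial.aeval (Sum.elim ζ x) (pe P e) := by
    intro b
    rw [hPb, map_sum]
    refine Finset.sum_congr rfl fun e _ => ?_
    rw [map_mul, MvPolynomial.aeval_C, eq_intCast]
  -- the value of the linear form
  have hval : ∑ b, MvPolynomial.aeval (Sum.elim ζ x) (Pb b) * ∏ j, ((((Real.log (t j) : ℝ) : ℂ)) ^ ((b j).1 : ℕ) *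
      evc (1 / x j) (LL α1 0 (b j).2.1)) = (D : ℂ) * MvPolynomial.aeval (Sum.elim (v2 t) ζ) P := by
    rw [pe_eval P hPd ζ x, Finset.mul_sum]
    have h1 : ∀ b : JX (fun _ : Fin k => 1) (6 * d), MvPolynomial.aeval (Sum.elim ζ x) (Pb b) *
        ∏ j, ((((Real.log (t j) : ℝ) : ℂ)) ^ ((b j).1 : ℕ) * evc (1 / x j) (LL α1 0 (b j).2.1)) =
        ∑ e : Fin k × Fin 2 → Fin (d + 1), (D : ℂ) * (MvPolynomial.aeval (Sum.elim ζ x) (pe P e) *
          ∏ j, ((κ (sj e j) (b j) : ℂ) * ((((Real.log (t j) : ℝ) : ℂ)) ^ ((b j).1 : ℕ) * evc (1 / x j) (LL α1 0 (b j).2.1)))) := by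
      intro b
      rw [hPbe, Finset.sum_mul]
      refine Finset.sum_congr rfl fun e _ => ?_
      have h0 : ∏ j, ((κ (sj e j) (b j) : ℂ) * ((((Real.log (t j) : ℝ) : ℂ)) ^ ((b j).1 : ℕ) * evc (1 / x j) (LL α1 0 (b j).2.1))) =
          (∏ j, (κ (sj e j) (b j) : ℂ)) * ∏ j, ((((Real.log (t j) : ℝ) : ℂ)) ^ ((b j).1 : ℕ) * evc (1 / x j) (LL α1 0 (b j).2.1)) :=
        Finset.prod_mul_distrib
      rw [hcC, h0]
      ring
    simp only [h1]
    rw [Finset.sum_comm]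
    refine Finset.sum_congr rfl fun e _ => ?_
    rw [← Finset.mul_sum, ← Finset.mul_sum]
    congr 2
    have h2 := Finset.prod_univ_sum (fun _ : Fin k => (Finset.univ : Finset (Fin (6 * d + 1) × WI 1 (6 * d))))
      (fun j b => (κ (sj e j) b : ℂ) * ((((Real.log (t j) : ℝ) : ℂ)) ^ (b.1 : ℕ) * evc (1 / x j) (LL α1 0 b.2.1)))
    rw [Fintype.piFinset_univ] at h2
    rw [← h2, Fintype.prod_prod_type]
    refine Finset.prod_congr rfl fun j _ => ?_
    rw [Fin.prod_univ_two, ← (ht j).2.1, FM_val d hκ (ht j).1]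
    rfl
  -- the coefficients
  have hinv : ∀ e₀, (D : ℂ) * MvPolynomial.aeval (Sum.elim ζ x) (pe P e₀) =
      ∑ b, ((∏ j, lam (sj e₀ j) (b j) : ℚ) : ℂ) * MvPolynomial.aeval (Sum.elim ζ x) (Pb b) := by
    intro e₀
    have h1 : ∀ b : JX (fun _ : Fin k => 1) (6 * d), ((∏ j, lam (sj e₀ j) (b j) : ℚ) : ℂ) * MvPolynomial.aeval (Sum.elim ζ x) (Pb b) =
        ∑ e : Fin k × Fin 2 → Fin (d + 1), ((D : ℂ) * MvPolynomial.aeval (Sum.elim ζ x) (pe P e)) *
          ((∏ j, (lam (sj e₀ j) (b j) * κ (sj e j) (b j)) : ℚ) : ℂ) := by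
      intro b
      rw [hPbe, Finset.mul_sum]
      refine Finset.sum_congr rfl fun e _ => ?_
      rw [hcC, Finset.prod_mul_distrib]
      push_cast
      ring
    simp only [h1]
    rw [Finset.sum_comm]
    have h2 : ∀ e : Fin k × Fin 2 → Fin (d + 1), ∑ b : JX (fun _ : Fin k => 1) (6 * d),
        ((∏ j, (lam (sj e₀ j) (b j) * κ (sj e j) (b j)) : ℚ) : ℂ) = if e₀ = e then 1 else 0 := by
      intro e
      have h3 := Finset.prod_univ_sum (fun _ : Fin k => (Finset.univ : Finset (Fin (6 * d + 1) × WI 1 (6 * d))))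
        (fun j b => lam (sj e₀ j) b * κ (sj e j) b)
      rw [Fintype.piFinset_univ] at h3
      have h4 : ((∑ b : JX (fun _ : Fin k => 1) (6 * d), ∏ j, (lam (sj e₀ j) (b j) * κ (sj e j) (b j)) : ℚ) : ℂ) =
          ((∏ j, (if sj e₀ j = sj e j then (1 : ℚ) else 0) : ℚ) : ℂ) := by
        congr 1
        refine h3.symm.trans ?_
        exact Finset.prod_congr rfl fun j _ => hlam _ _
      push_cast at h4
      push_cast
      rw [h4]
      by_cases he : e₀ = e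
      · subst he
        simp
      · rw [if_neg he]
        obtain ⟨v, hv⟩ := Function.ne_iff.1 he
        refine Finset.prod_eq_zero (Finset.mem_univ v.1) ?_
        have h6 : (if sj e₀ v.1 = sj e v.1 then (1 : ℚ) else 0) = 0 := if_neg fun h5 => hv (congrFun h5 v.2)
        rw [h6]
        simp
    simp only [← Finset.mul_sum, h2]
    simp
  -- the estimate
  obtain ⟨X, hX⟩ : ∃ X : ℝ, X = max 1 ‖w‖ := ⟨_, rfl⟩
  have hX1 : 1 ≤ X := hX ▸ le_max_left _ _
  have hwX : ‖w‖ ≤ X := hX ▸ le_max_right _ _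
  rw [← hX]
  obtain ⟨Y, hY⟩ : ∃ Y : ℝ, Y = ‖MvPolynomial.aeval (Sum.elim (v2 t) ζ) P‖ := ⟨_, rfl⟩
  have hY0 : 0 ≤ Y := hY ▸ norm_nonneg _
  rw [← hY]
  have hD0 : 0 < ‖(D : ℂ)‖ := norm_pos_iff.2 (by exact_mod_cast hD)
  have hpe : ∀ e₀, ‖MvPolynomial.aeval (Sum.elim ζ x) (pe P e₀)‖ ≤
      (∑ b : JX (fun _ : Fin k => 1) (6 * d), |((∏ j, lam (sj e₀ j) (b j) : ℚ) : ℝ)|) * ((H ^ 2) ^ B₀ * Y) := by
    intro e₀
    have h1 := congrArg norm (hinv e₀)
    rw [norm_mul] at h1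
    have h2 : ‖(D : ℂ)‖ * ‖MvPolynomial.aeval (Sum.elim ζ x) (pe P e₀)‖ ≤
        ‖(D : ℂ)‖ * ((∑ b : JX (fun _ : Fin k => 1) (6 * d), |((∏ j, lam (sj e₀ j) (b j) : ℚ) : ℝ)|) * ((H ^ 2) ^ B₀ * Y)) := by
      rw [h1]
      refine (norm_sum_le _ _).trans ?_
      rw [mul_left_comm, Finset.sum_mul]
      refine Finset.sum_le_sum fun b _ => ?_
      rw [norm_mul, Complex.norm_ratCast]
      refine mul_le_mul_of_nonneg_left ?_ (abs_nonneg _)
      have h3 := g2 Pb hPbd hPbH b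
      rw [hval, norm_mul, ← hY] at h3
      refine h3.trans (le_of_eq ?_)
      ring
    exact le_of_mul_le_mul_left h2 hD0
  rw [pe_eval P hPd ζ x]
  refine (norm_sum_le _ _).trans ?_
  calc _ ≤ ∑ e : Fin k × Fin 2 → Fin (d + 1), ((∑ b : JX (fun _ : Fin k => 1) (6 * d),
        |((∏ j, lam (sj e j) (b j) : ℚ) : ℝ)|) * ((H ^ 2) ^ B₀ * Y)) * X ^ (N * d) := by
        refine Finset.sum_le_sum fun e _ => ?_
        rw [norm_mul]
        refine mul_le_mul (hpe e) ?_ (norm_nonneg _) (mul_nonneg (Finset.sum_nonneg fun _ _ => abs_nonneg _) (by positivity))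
        rw [norm_prod, mul_comm N d, pow_mul, hN, ← Finset.card_univ, ← Finset.prod_const]
        refine Finset.prod_le_prod (fun _ _ => norm_nonneg _) fun v _ => ?_
        rw [norm_pow]
        refine (pow_le_pow_left₀ (norm_nonneg _) ((norm_le_pi_norm w v).trans hwX) _).trans (pow_le_pow_right₀ hX1 ?_)
        have := (e v).2
        omega
    _ = Λ * ((H ^ 2) ^ B₀ * Y) * X ^ (N * d) := by rw [hΛ, Finset.sum_mul, Finset.sum_mul]
    _ ≤ H * ((H ^ 2) ^ B₀ * Y) * X ^ (N * d) :=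
        mul_le_mul_of_nonneg_right (mul_le_mul_of_nonneg_right hHΛ (by positivity)) (by positivity)
    _ = H ^ (2 * B₀ + 1) * X ^ (N * d) * Y := by
        rw [← pow_mul, pow_succ]
        ring
    _ ≤ (H * X) ^ (2 * B₀ + 1) * (H * X) ^ (N * d) * Y := by
        refine mul_le_mul_of_nonneg_right (mul_le_mul ?_ ?_ (by positivity) (by positivity)) hY0
        · exact pow_le_pow_left₀ hH0.le (le_mul_of_one_le_right hH0.le hX1) _
        · exact pow_le_pow_left₀ (by linarith) (le_mul_of_one_le_left (by linarith) hH1) _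
    _ = (H * X) ^ (2 * B₀ + (N * d + 1)) * Y := by
        rw [← pow_add]
        congr 2
        ring

end Pool.Agent.Q189.Z3
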